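import Mathlib

/-!
Selection principles for gamma-covers and omega-covers, and their behaviour under passing to
`F_σ` subsets.
-/

set_option autoImplicit false

open Set

namespace Pool.Agent.H860R2.FSigma

universe u v

/-- Nontrivial open covers of the space `X`. -/
def IsOpenCover {X : Type u} [TopologicalSpace X] (U : Set (Set X)) : Prop :=
  (∀ s ∈ U, IsOpen s) ∧ ⋃₀ U = univ ∧ (univ : Set X) ∉ U

/-- The open omega-covers of `X`. -/
def Omega (X : Type u) [TopologicalSpace X] : Set (Set (Set X)) :=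
  {U | IsOpenCover U ∧ ∀ F : Set X, F.Finite → ∃ s ∈ U, F ⊆ s}

/-- The open gamma-covers of `X`. -/
def Gamma (X : Type u) [TopologicalSpace X] : Set (Set (Set X)) :=
  {U | IsOpenCover U ∧ U.Infinite ∧ ∀ x, {s | s ∈ U ∧ x ∉ s}.Finite}

/-- `S_1(A, B)`. -/
def S1 {X : Type u} (A B : Set (Set (Set X))) : Prop :=
  ∀ U : ℕ → Set (Set X), (∀ n, U n ∈ A) →
    ∃ V : ℕ → Set X, (∀ n, V n ∈ U n) ∧ range V ∈ B

/-- `S_fin(A, B)`. -/
def Sfin {X : Type u} (A B : Set (Set (Set X))) : Prop :=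
  ∀ U : ℕ → Set (Set X), (∀ n, U n ∈ A) →
    ∃ F : ℕ → Set (Set X), (∀ n, (F n).Finite ∧ F n ⊆ U n) ∧ (⋃ n, F n) ∈ B

section

variable {X : Type u} [TopologicalSpace X] {Y : Type v} [TopologicalSpace Y] {f : Y → X}

/-- An open subset of the big space which traces to the given open subset. -/
theorem exists_ext (hf : Topology.IsInducing f) (s : Set Y) :
    ∃ w : Set X, IsOpen s → IsOpen w ∧ f ⁻¹' w = s := by
  by_cases h : IsOpen s
  · obtain ⟨w, hw, hws⟩ := hf.isOpen_iff.1 h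
    exact ⟨w, fun _ => ⟨hw, hws⟩⟩
  · exact ⟨∅, fun h' => absurd h' h⟩

/-- The extended covers are gamma-covers. -/
theorem ext_gamma (w : Set Y → Set X) {U : Set (Set Y)} (hU : U ∈ Gamma Y)
    (hw : ∀ s ∈ U, IsOpen (w s) ∧ f ⁻¹' (w s) = s) {C : Set X} (hC : IsClosed C)
    (hCf : C ⊆ range f) (hno : ¬ ∃ s ∈ U, f ⁻¹' C ⊆ s) :
    (fun s => w s ∪ Cᶜ) '' U ∈ Gamma X := by
  obtain ⟨⟨hopen, hcov, hnt⟩, hinf, hfin⟩ := hU
  have hmem : ∀ s ∈ U, ∀ y, f y ∈ w s ↔ y ∈ s := by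
    intro s hs y
    conv_rhs => rw [← (hw s hs).2]
    rfl
  refine ⟨⟨?_, ?_, ?_⟩, ?_, ?_⟩
  · rintro _ ⟨s, hs, rfl⟩
    exact (hw s hs).1.union hC.isOpen_compl
  · rw [eq_univ_iff_forall]
    intro x
    by_cases hx : x ∈ C
    · obtain ⟨y, rfl⟩ := hCf hx
      have hy : y ∈ ⋃₀ U := by rw [hcov]; exact mem_univ y
      obtain ⟨s, hs, hys⟩ := hy
      exact ⟨_, ⟨s, hs, rfl⟩, Or.inl ((hmem s hs y).2 hys)⟩
    · obtain ⟨s, hs⟩ := hinf.nonempty
      exact ⟨_, ⟨s, hs, rfl⟩, Or.inr hx⟩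
  · rintro ⟨s, hs, hsu⟩
    refine hno ⟨s, hs, fun y hy => ?_⟩
    have : f y ∈ w s ∪ Cᶜ := by
      have h1 : w s ∪ Cᶜ = univ := hsu
      rw [h1]; exact mem_univ _
    rcases this with h | h
    · exact (hmem s hs y).1 h
    · exact absurd hy h
  · intro hfi
    -- some value is taken infinitely often
    obtain ⟨v, hv, hvinf⟩ : ∃ v ∈ (fun s => w s ∪ Cᶜ) '' U,
        {s | s ∈ U ∧ w s ∪ Cᶜ = v}.Infinite := by
      by_contra hcon
      push Not at hcon
      apply hinf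
      have : U ⊆ ⋃ v ∈ (fun s => w s ∪ Cᶜ) '' U, {s | s ∈ U ∧ w s ∪ Cᶜ = v} := by
        intro s hs
        simp only [mem_iUnion]
        exact ⟨_, ⟨s, hs, rfl⟩, hs, rfl⟩
      refine (hfi.biUnion fun v hv => ?_).subset this
      have := hcon v hv
      simpa using this
    obtain ⟨s0, hs0, hs0v⟩ := hv
    refine hno ⟨s0, hs0, fun y hy => ?_⟩
    obtain ⟨s, hs, hs2⟩ := (hvinf.sdiff (hfin y)).nonempty
    have hys : y ∈ s := by
      by_contra hc
      exact hs2 ⟨hs.1, hc⟩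
    have h1 : f y ∈ w s0 ∪ Cᶜ := by
      have h2 : w s0 ∪ Cᶜ = v := hs0v
      rw [h2, ← hs.2]
      exact Or.inl ((hmem s hs.1 y).2 hys)
    rcases h1 with h | h
    · exact (hmem s0 hs0 y).1 h
    · exact absurd hy h
  · intro x
    by_cases hx : x ∈ C
    · obtain ⟨y, rfl⟩ := hCf hx
      refine ((hfin y).image (fun s => w s ∪ Cᶜ)).subset ?_
      rintro _ ⟨⟨s, hs, rfl⟩, hxs⟩
      refine ⟨s, ⟨hs, fun hys => hxs (Or.inl ((hmem s hs y).2 hys))⟩, rfl⟩
    · refine finite_empty.subset ?_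
      rintro _ ⟨⟨s, hs, rfl⟩, hxs⟩
      exact hxs (Or.inr hx)

/-- In an omega-cover which is a union of finite families, every finite set is covered by the
members of arbitrarily late families. -/
theorem late {F : ℕ → Set (Set X)} (hF : ∀ n, (F n).Finite) (hO : (⋃ n, F n) ∈ Omega X)
    {S : Set X} (hS : S.Finite) (N : ℕ) : ∃ n, N ≤ n ∧ ∃ v ∈ F n, S ⊆ v := by
  obtain ⟨⟨_, _, hnt⟩, hom⟩ := hO
  by_contra hcon
  push Not at hcon
  have hfin : (⋃ n ∈ Iio N, F n).Finite := (finite_Iio N).biUnion fun n _ => hF n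
  have hex : ∀ v : Set X, ∃ x : Set X, x.Finite ∧ (v ∈ (⋃ n, F n) → ¬ x ⊆ v) := by
    intro v
    by_cases hv : v ∈ ⋃ n, F n
    · have : v ≠ univ := fun h => hnt (h ▸ hv)
      obtain ⟨x, hx⟩ := (ne_univ_iff_exists_notMem v).1 this
      exact ⟨{x}, finite_singleton x, fun _ h => hx (h rfl)⟩
    · exact ⟨∅, finite_empty, fun h => absurd h hv⟩
  choose x hxf hx using hex
  obtain ⟨v, hv, hSv⟩ := hom (S ∪ ⋃ v ∈ (⋃ n ∈ Iio N, F n), x v)
    (hS.union (hfin.biUnion fun v _ => hxf v))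
  obtain ⟨n, hn⟩ := mem_iUnion.1 hv
  have hnN : n < N := by
    by_contra hc
    exact hcon n (not_lt.1 hc) v hn (subset_union_left.trans hSv)
  have h1 : v ∈ ⋃ n ∈ Iio N, F n := by
    simp only [mem_iUnion]
    exact ⟨n, hnN, hn⟩
  exact hx v hv ((subset_biUnion_of_mem (u := fun v => x v) h1).trans
    (subset_union_right.trans hSv))

theorem sfin_fsigma (hf : Topology.IsInducing f) (C : ℕ → Set X) (hC : ∀ n, IsClosed (C n))
    (hCf : range f = ⋃ n, C n) (h : Sfin (Gamma X) (Omega X)) : Sfin (Gamma Y) (Omega Y) := by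
  classical
  intro U hU
  -- increasing closed sets
  let D : ℕ → Set X := fun n => ⋃ k ∈ Iic n, C k
  have hD : ∀ n, IsClosed (D n) := fun n => (finite_Iic n).isClosed_biUnion fun k _ => hC k
  have hDf : ∀ n, D n ⊆ range f := by
    intro n x hx
    simp only [D, mem_iUnion] at hx
    obtain ⟨k, _, hk⟩ := hx
    rw [hCf]
    exact mem_iUnion.2 ⟨k, hk⟩
  have hDm : Monotone D := by
    intro a b hab x hx
    simp only [D, mem_iUnion] at hx ⊢
    obtain ⟨k, hk, hk'⟩ := hx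
    exact ⟨k, le_trans hk hab, hk'⟩
  have hDex : ∀ y : Y, ∃ n, f y ∈ D n := by
    intro y
    have : f y ∈ ⋃ n, C n := by rw [← hCf]; exact mem_range_self y
    obtain ⟨n, hn⟩ := mem_iUnion.1 this
    refine ⟨n, ?_⟩
    simp only [D, mem_iUnion]
    exact ⟨n, mem_Iic.2 le_rfl, hn⟩
  have hDfin : ∀ S : Set Y, S.Finite → ∃ n, ∀ m, n ≤ m → S ⊆ f ⁻¹' (D m) := by
    intro S hS
    choose g hg using hDex
    obtain ⟨n, hn⟩ := (hS.image g).bddAbove
    refine ⟨n, fun m hm y hy => hDm ((hn (mem_image_of_mem g hy)).trans hm) (hg y)⟩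
  by_cases hcase : ∀ N, ∃ n, N ≤ n ∧ ∃ s ∈ U n, f ⁻¹' (D n) ⊆ s
  · -- use the members that contain the closed sets
    let F : ℕ → Set (Set Y) := fun n => if hn : ∃ s ∈ U n, f ⁻¹' (D n) ⊆ s then {hn.choose} else ∅
    have hF : ∀ n, F n ⊆ U n := by
      intro n s hs
      simp only [F] at hs
      split_ifs at hs with hn
      · rw [mem_singleton_iff] at hs
        rw [hs]; exact hn.choose_spec.1
      · exact absurd hs (notMem_empty _)
    have hS : ∀ S : Set Y, S.Finite → ∃ s ∈ ⋃ n, F n, S ⊆ s := by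
      intro S hS
      obtain ⟨N, hN⟩ := hDfin S hS
      obtain ⟨n, hn, hex⟩ := hcase N
      refine ⟨hex.choose, mem_iUnion.2 ⟨n, ?_⟩, (hN n hn).trans hex.choose_spec.2⟩
      simp only [F]
      rw [dif_pos hex]
      rfl
    refine ⟨F, fun n => ⟨?_, hF n⟩, ⟨⟨?_, ?_, ?_⟩, hS⟩⟩
    · simp only [F]
      split_ifs
      · exact finite_singleton _
      · exact finite_empty
    · intro s hs
      obtain ⟨n, hn⟩ := mem_iUnion.1 hs
      exact (hU n).1.1 s (hF n hn)
    · rw [eq_univ_iff_forall]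
      intro y
      obtain ⟨s, hs, hys⟩ := hS {y} (finite_singleton y)
      exact ⟨s, hs, hys rfl⟩
    · intro hs
      obtain ⟨n, hn⟩ := mem_iUnion.1 hs
      exact (hU n).1.2.2 (hF n hn)
  · push Not at hcase
    obtain ⟨N, hN⟩ := hcase
    choose w hw using exists_ext hf
    let E : ℕ → Set Y → Set X := fun n s => w s ∪ (D n)ᶜ
    have hV : ∀ n, E (N + n) '' U (N + n) ∈ Gamma X := by
      intro n
      refine ext_gamma w (hU _) (fun s hs => hw s ((hU _).1.1 s hs)) (hD _) (hDf _) ?_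
      rintro ⟨s, hs, hs2⟩
      exact hN (N + n) (Nat.le_add_right _ _) s hs hs2
    obtain ⟨F, hF, hFO⟩ := h (fun n => E (N + n) '' U (N + n)) hV
    have hpull : ∀ n, ∃ G : Set (Set Y), G ⊆ U (N + n) ∧ G.Finite ∧ E (N + n) '' G = F n := by
      intro n
      obtain ⟨G, hG1, hG2⟩ := exists_subset_bijOn (U (N + n) ∩ E (N + n) ⁻¹' F n) (E (N + n))
      have himg : E (N + n) '' (U (N + n) ∩ E (N + n) ⁻¹' F n) = F n := by
        ext v
        constructor
        · rintro ⟨s, ⟨_, hs⟩, rfl⟩; exact hs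
        · intro hv
          obtain ⟨s, hs, rfl⟩ := (hF n).2 hv
          exact ⟨s, ⟨hs, hv⟩, rfl⟩
      rw [himg] at hG2
      refine ⟨G, hG1.trans inter_subset_left, ?_, hG2.image_eq⟩
      exact Set.Finite.of_finite_image (by rw [hG2.image_eq]; exact (hF n).1) hG2.injOn
    choose G hG1 hG2 hG3 using hpull
    let F' : ℕ → Set (Set Y) := fun m => if N ≤ m then G (m - N) else ∅
    have hF' : ∀ m, F' m ⊆ U m := by
      intro m s hs
      simp only [F'] at hs
      split_ifs at hs with hm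
      · have := hG1 (m - N) hs
        rwa [Nat.add_sub_cancel' hm] at this
      · exact absurd hs (notMem_empty _)
    have hS : ∀ S : Set Y, S.Finite → ∃ s ∈ ⋃ n, F' n, S ⊆ s := by
      intro S hS
      obtain ⟨M, hM⟩ := hDfin S hS
      obtain ⟨n, hn, v, hv, hSv⟩ := late (fun n => (hF n).1) hFO (hS.image f) M
      rw [← hG3 n] at hv
      obtain ⟨s, hs, rfl⟩ := hv
      refine ⟨s, mem_iUnion.2 ⟨N + n, ?_⟩, fun y hy => ?_⟩
      · simp only [F']
        rw [if_pos (Nat.le_add_right _ _), Nat.add_sub_cancel_left]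
        exact hs
      · have hws := hw s ((hU _).1.1 s (hG1 n hs))
        rcases hSv (mem_image_of_mem f hy) with h1 | h1
        · rw [← hws.2]; exact h1
        · exact absurd (hM (N + n) (by omega) hy) h1
    refine ⟨F', fun n => ⟨?_, hF' n⟩, ⟨⟨?_, ?_, ?_⟩, hS⟩⟩
    · simp only [F']
      split_ifs
      · exact hG2 _
      · exact finite_empty
    · intro s hs
      obtain ⟨n, hn⟩ := mem_iUnion.1 hs
      exact (hU n).1.1 s (hF' n hn)
    · rw [eq_univ_iff_forall]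
      intro y
      obtain ⟨s, hs, hys⟩ := hS {y} (finite_singleton y)
      exact ⟨s, hs, hys rfl⟩
    · intro hs
      obtain ⟨n, hn⟩ := mem_iUnion.1 hs
      exact (hU n).1.2.2 (hF' n hn)

theorem s1_fsigma (hf : Topology.IsInducing f) (C : ℕ → Set X) (hC : ∀ n, IsClosed (C n))
    (hCf : range f = ⋃ n, C n) (h : S1 (Gamma X) (Omega X)) : S1 (Gamma Y) (Omega Y) := by
  classical
  intro U hU
  -- increasing closed sets
  let D : ℕ → Set X := fun n => ⋃ k ∈ Iic n, C k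
  have hD : ∀ n, IsClosed (D n) := fun n => (finite_Iic n).isClosed_biUnion fun k _ => hC k
  have hDf : ∀ n, D n ⊆ range f := by
    intro n x hx
    simp only [D, mem_iUnion] at hx
    obtain ⟨k, _, hk⟩ := hx
    rw [hCf]
    exact mem_iUnion.2 ⟨k, hk⟩
  have hDm : Monotone D := by
    intro a b hab x hx
    simp only [D, mem_iUnion] at hx ⊢
    obtain ⟨k, hk, hk'⟩ := hx
    exact ⟨k, le_trans hk hab, hk'⟩
  have hDex : ∀ y : Y, ∃ n, f y ∈ D n := by
    intro y
    have : f y ∈ ⋃ n, C n := by rw [← hCf]; exact mem_range_self y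
    obtain ⟨n, hn⟩ := mem_iUnion.1 this
    refine ⟨n, ?_⟩
    simp only [D, mem_iUnion]
    exact ⟨n, mem_Iic.2 le_rfl, hn⟩
  have hDfin : ∀ S : Set Y, S.Finite → ∃ n, ∀ m, n ≤ m → S ⊆ f ⁻¹' (D m) := by
    intro S hS
    choose g hg using hDex
    obtain ⟨n, hn⟩ := (hS.image g).bddAbove
    refine ⟨n, fun m hm y hy => hDm ((hn (mem_image_of_mem g hy)).trans hm) (hg y)⟩
  have hUne : ∀ n, ∃ s, s ∈ U n := fun n => (hU n).2.1.nonempty
  have fin : ∀ V : ℕ → Set Y, (∀ n, V n ∈ U n) → (∀ S : Set Y, S.Finite → ∃ n, S ⊆ V n) →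
      ∃ V : ℕ → Set Y, (∀ n, V n ∈ U n) ∧ range V ∈ Omega Y := by
    intro V hV hS
    refine ⟨V, hV, ⟨⟨?_, ?_, ?_⟩, ?_⟩⟩
    · rintro _ ⟨n, rfl⟩
      exact (hU n).1.1 _ (hV n)
    · rw [eq_univ_iff_forall]
      intro y
      obtain ⟨n, hn⟩ := hS {y} (finite_singleton y)
      exact ⟨V n, mem_range_self n, hn rfl⟩
    · rintro ⟨n, hn⟩
      exact (hU n).1.2.2 (hn ▸ hV n)
    · intro S hSf
      obtain ⟨n, hn⟩ := hS S hSf
      exact ⟨V n, mem_range_self n, hn⟩
  by_cases hcase : ∀ N, ∃ n, N ≤ n ∧ ∃ s ∈ U n, f ⁻¹' (D n) ⊆ s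
  · have hex : ∀ n, ∃ s ∈ U n, (∃ s ∈ U n, f ⁻¹' (D n) ⊆ s) → f ⁻¹' (D n) ⊆ s := by
      intro n
      by_cases hn : ∃ s ∈ U n, f ⁻¹' (D n) ⊆ s
      · obtain ⟨s, hs, hs2⟩ := hn
        exact ⟨s, hs, fun _ => hs2⟩
      · obtain ⟨s, hs⟩ := hUne n
        exact ⟨s, hs, fun h' => absurd h' hn⟩
    choose V hV hV2 using hex
    refine fin V hV fun S hS => ?_
    obtain ⟨N, hN⟩ := hDfin S hS
    obtain ⟨n, hn, hex⟩ := hcase N
    exact ⟨n, (hN n hn).trans (hV2 n hex)⟩
  · push Not at hcase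
    obtain ⟨N, hN⟩ := hcase
    choose w hw using exists_ext hf
    let E : ℕ → Set Y → Set X := fun n s => w s ∪ (D n)ᶜ
    have hV : ∀ n, E (N + n) '' U (N + n) ∈ Gamma X := by
      intro n
      refine ext_gamma w (hU _) (fun s hs => hw s ((hU _).1.1 s hs)) (hD _) (hDf _) ?_
      rintro ⟨s, hs, hs2⟩
      exact hN (N + n) (Nat.le_add_right _ _) s hs hs2
    obtain ⟨F, hF, hFO⟩ := h (fun n => E (N + n) '' U (N + n)) hV
    choose G hG1 hG2 using hF
    choose s0 hs0 using hUne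
    let V : ℕ → Set Y := fun m => if N ≤ m then G (m - N) else s0 m
    have hVadd : ∀ n, V (N + n) = G n := by
      intro n
      simp only [V]
      rw [if_pos (Nat.le_add_right _ _), Nat.add_sub_cancel_left]
    have hVU : ∀ m, V m ∈ U m := by
      intro m
      simp only [V]
      split_ifs with hm
      · have := hG1 (m - N)
        rwa [Nat.add_sub_cancel' hm] at this
      · exact hs0 m
    refine fin V hVU fun S hS => ?_
    obtain ⟨M, hM⟩ := hDfin S hS
    have hFO' : (⋃ n, ({F n} : Set (Set X))) ∈ Omega X := by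
      rw [iUnion_singleton_eq_range]
      exact hFO
    obtain ⟨n, hn, v, hv, hSv⟩ := late (fun n => finite_singleton (F n)) hFO' (hS.image f) M
    rw [mem_singleton_iff] at hv
    refine ⟨N + n, ?_⟩
    rw [hVadd]
    intro y hy
    have hws := hw (G n) ((hU _).1.1 _ (hG1 n))
    have h2 : f y ∈ E (N + n) (G n) := by
      have h3 : E (N + n) (G n) = v := by rw [hv]; exact hG2 n
      rw [h3]
      exact hSv (mem_image_of_mem f hy)
    rcases h2 with h1 | h1
    · rw [← hws.2]; exact h1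
    · exact absurd (hM (N + n) (by omega) hy) h1

end

end Pool.Agent.H860R2.FSigma
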