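import Mathlib

/-!
A countable Hausdorff space on which the open-point game is undetermined.

Let `B` be an uncountable `λ`-set of functions `ℕ → ℕ` (a `𝔟`-scale). The space is the set of the
finite sequences of natural numbers with the topology obtained from a second countable Hausdorff
topology, all of whose nonempty open sets contain infinitely many complete levels, by making the
branches `{x|n : n}`, `x ∈ B`, closed.
-/

set_option autoImplicit false
set_option linter.style.haveILetI false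
set_option linter.deprecated false

open Set Filter Topology

namespace Pool.Agent.H860R2.OP

/-! ### An uncountable `λ`-set -/

theorem exists_scale : ∃ (ι : Type) (_ : LinearOrder ι) (_ : WellFoundedLT ι) (f : ι → ℕ → ℕ),
    (∀ a b, a < b → f a ≤ᶠ[atTop] f b) ∧ (∀ g : ℕ → ℕ, ∃ a, ¬ f a ≤ᶠ[atTop] g) ∧
    (∀ (a : ι) (h : ι → ℕ → ℕ), ∃ g : ℕ → ℕ, ∀ b ≤ a, h b ≤ᶠ[atTop] g) := by
  classical
  let P : Set Cardinal.{0} := {c | ∃ (α : Type) (h : α → ℕ → ℕ), Cardinal.mk α = c ∧
    ∀ g : ℕ → ℕ, ∃ a, ¬ h a ≤ᶠ[atTop] g}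
  have hP : P.Nonempty := by
    refine ⟨Cardinal.mk (ℕ → ℕ), (ℕ → ℕ), id, rfl, fun g => ⟨fun n => g n + 1, ?_⟩⟩
    intro hcon
    obtain ⟨n, hn⟩ := hcon.exists
    simp at hn
  obtain ⟨c, ⟨α, h, hc, hunb⟩, hmin⟩ := WellFounded.has_min Cardinal.lt_wf P hP
  have hbdd : ∀ (β : Type) (k : β → ℕ → ℕ), Cardinal.mk β < c →
      ∃ g : ℕ → ℕ, ∀ b, k b ≤ᶠ[atTop] g := by
    intro β k hβ
    by_contra hcon
    push Not at hcon
    exact hmin _ ⟨β, k, rfl, hcon⟩ hβ
  have heq : Cardinal.mk c.ord.ToType = Cardinal.mk α := by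
    rw [Cardinal.mk_ord_toType, hc]
  obtain ⟨e⟩ := Cardinal.eq.1 heq
  have hsmall : ∀ (a : c.ord.ToType) (k : c.ord.ToType → ℕ → ℕ),
      ∃ g : ℕ → ℕ, ∀ b < a, k b ≤ᶠ[atTop] g := by
    intro a k
    obtain ⟨g, hg⟩ := hbdd (Iio a) (fun b => k b) (Cardinal.mk_Iio_toType_ord_lt a)
    exact ⟨g, fun b hb => hg ⟨b, hb⟩⟩
  have hsmall' : ∀ (a : c.ord.ToType) (k : c.ord.ToType → ℕ → ℕ),
      ∃ g : ℕ → ℕ, ∀ b ≤ a, k b ≤ᶠ[atTop] g := by
    intro a k
    obtain ⟨g, hg⟩ := hsmall a k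
    refine ⟨fun n => max (g n) (k a n), fun b hb => ?_⟩
    rcases hb.lt_or_eq with hb | rfl
    · filter_upwards [hg b hb] with n hn using hn.trans (le_max_left _ _)
    · filter_upwards with n using le_max_right _ _
  -- recursive choice
  have hrec : ∀ (a : c.ord.ToType) (F : ∀ b, b < a → (ℕ → ℕ)),
      ∃ g : ℕ → ℕ, (∀ b (hb : b < a), F b hb ≤ᶠ[atTop] g) ∧ h (e a) ≤ᶠ[atTop] g := by
    intro a F
    obtain ⟨g, hg⟩ := hsmall a (fun b => if hb : b < a then F b hb else 0)
    refine ⟨fun n => max (g n) (h (e a) n), fun b hb => ?_, ?_⟩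
    · have := hg b hb
      rw [dif_pos hb] at this
      filter_upwards [this] with n hn using hn.trans (le_max_left _ _)
    · filter_upwards with n using le_max_right _ _
  choose G hG1 hG2 using hrec
  let f : c.ord.ToType → ℕ → ℕ := fun a => (wellFounded_lt (α := c.ord.ToType)).fix G a
  have hf : ∀ a, f a = G a (fun b _ => f b) := fun a => WellFounded.fix_eq _ _ _
  refine ⟨c.ord.ToType, inferInstance, inferInstance, f, ?_, ?_, hsmall'⟩
  · intro a b hab
    rw [hf b]
    exact hG1 b (fun b _ => f b) a hab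
  · intro g
    obtain ⟨a, ha⟩ := hunb g
    refine ⟨e.symm a, fun hcon => ha ?_⟩
    have h1 : h (e (e.symm a)) ≤ᶠ[atTop] f (e.symm a) := by
      rw [hf (e.symm a)]
      exact hG2 _ _
    rw [e.apply_symm_apply] at h1
    exact h1.trans hcon

theorem countable_bound (h : ℕ → ℕ → ℕ) : ∃ g : ℕ → ℕ, ∀ k, h k ≤ᶠ[atTop] g := by
  refine ⟨fun n => (Finset.range (n + 1)).sup (fun k => h k n), fun k => ?_⟩
  filter_upwards [eventually_ge_atTop k] with n hn
  exact Finset.le_sup (f := fun k => h k n) (Finset.mem_range.2 (Nat.lt_succ_of_le hn))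


/-- Every countable subset of `B` is a relative `G_δ`-set (in a combinatorial form). -/
def Lam (B : Set (ℕ → ℕ)) : Prop :=
  ∀ C : Set (ℕ → ℕ), C ⊆ B → C.Countable → ∃ F : ℕ → Set (ℕ → ℕ),
    (∀ y ∈ B, y ∉ C → ∃ j, y ∈ F j) ∧ ∀ j, ∀ x ∈ C, ∃ l, ∀ y ∈ F j, ∃ i < l, y i ≠ x i

theorem exists_lam : ∃ B : Set (ℕ → ℕ), ¬ B.Countable ∧ Lam B := by
  classical
  obtain ⟨ι, _, _, f, hmono, hunb, hsmall⟩ := exists_scale
  have hunc : ∀ C : Set (ℕ → ℕ), C.Countable → ∃ a, ∀ x ∈ C, ¬ f a ≤ᶠ[atTop] x := by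
    intro C hC
    rcases C.eq_empty_or_nonempty with rfl | hne
    · obtain ⟨a, _⟩ := hunb 0
      exact ⟨a, fun x hx => absurd hx (notMem_empty x)⟩
    obtain ⟨c, rfl⟩ := hC.exists_eq_range hne
    obtain ⟨g, hg⟩ := countable_bound c
    obtain ⟨a, ha⟩ := hunb g
    refine ⟨a, ?_⟩
    rintro _ ⟨n, rfl⟩ hcon
    exact ha (hcon.trans (hg n))
  refine ⟨range f, ?_, ?_⟩
  · intro hc
    obtain ⟨a, ha⟩ := hunc _ hc
    exact ha (f a) (mem_range_self a) (EventuallyLE.refl _ _)
  · intro C hCB hC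
    rcases C.eq_empty_or_nonempty with rfl | hne
    · refine ⟨fun _ => univ, fun y _ _ => ⟨0, mem_univ y⟩, fun j x hx => absurd hx (notMem_empty x)⟩
    obtain ⟨a, ha⟩ := hunc C hC
    obtain ⟨c, hc⟩ := hC.exists_eq_range hne
    have hcC : ∀ n, c n ∈ C := fun n => hc ▸ mem_range_self n
    -- separate the points below `a` from `C`
    have hsep : ∀ y : ℕ → ℕ, ∃ g : ℕ → ℕ, y ∉ C → ∀ n, ∃ i < g n, y i ≠ c n i := by
      intro y
      by_cases hy : y ∈ C
      · exact ⟨0, fun h => absurd hy h⟩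
      · have : ∀ n, ∃ k, ∃ i < k, y i ≠ c n i := by
          intro n
          have hne : y ≠ c n := fun h => hy (h ▸ hcC n)
          obtain ⟨i, hi⟩ := Function.ne_iff.1 hne
          exact ⟨i + 1, i, Nat.lt_succ_self i, hi⟩
        choose g hg using this
        exact ⟨g, fun _ => hg⟩
    choose g hg using hsep
    obtain ⟨G, hG⟩ := hsmall a (fun b => g (f b))
    let F1 : ℕ → Set (ℕ → ℕ) := fun m => {y | ∀ n, m ≤ n → f a n ≤ y n}
    let F2 : ℕ → Set (ℕ → ℕ) := fun m => {y | ∀ n, ∃ i < max (G n) m, y i ≠ c n i}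
    refine ⟨fun j => if Even j then F1 (j / 2) else F2 (j / 2), ?_, ?_⟩
    · rintro _ ⟨b, rfl⟩ hb
      rcases le_total a b with hab | hab
      · have h1 : f a ≤ᶠ[atTop] f b := by
          rcases hab.lt_or_eq with h | rfl
          · exact hmono a b h
          · exact EventuallyLE.refl _ _
        obtain ⟨m, hm⟩ := eventually_atTop.1 h1
        refine ⟨2 * m, ?_⟩
        have h2 : Even (2 * m) := even_two_mul m
        show f b ∈ if Even (2 * m) then F1 (2 * m / 2) else F2 (2 * m / 2)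
        rw [if_pos h2, Nat.mul_div_cancel_left m two_pos]
        exact hm
      · obtain ⟨m, hm⟩ := eventually_atTop.1 (hG b hab)
        refine ⟨2 * ((Finset.range m).sup (g (f b))) + 1, ?_⟩
        have h2 : ¬ Even (2 * ((Finset.range m).sup (g (f b))) + 1) := by
          rw [Nat.not_even_iff_odd]
          exact odd_two_mul_add_one _
        show f b ∈ if Even (2 * ((Finset.range m).sup (g (f b))) + 1) then
          F1 ((2 * ((Finset.range m).sup (g (f b))) + 1) / 2) else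
          F2 ((2 * ((Finset.range m).sup (g (f b))) + 1) / 2)
        rw [if_neg h2]
        have h3 : (2 * ((Finset.range m).sup (g (f b))) + 1) / 2 =
            (Finset.range m).sup (g (f b)) := by omega
        rw [h3]
        intro n
        obtain ⟨i, hi, hne'⟩ := hg (f b) hb n
        refine ⟨i, hi.trans_le ?_, hne'⟩
        rcases lt_or_ge n m with hnm | hnm
        · exact (Finset.le_sup (f := g (f b)) (Finset.mem_range.2 hnm)).trans (le_max_right _ _)
        · exact (hm n hnm).trans (le_max_left _ _)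
    · intro j x hx
      simp only
      split_ifs with hj
      · -- `F1`
        have h1 : ∃ n, j / 2 ≤ n ∧ x n < f a n := by
          by_contra hcon
          push Not at hcon
          exact ha x hx (eventually_atTop.2 ⟨j / 2, hcon⟩)
        obtain ⟨n, hn, hlt⟩ := h1
        refine ⟨n + 1, fun y hy => ⟨n, Nat.lt_succ_self n, ?_⟩⟩
        have := hy n hn
        omega
      · rw [hc] at hx
        obtain ⟨n, rfl⟩ := hx
        exact ⟨max (G n) (j / 2), fun y hy => hy n⟩

/-! ### The space -/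

/-- The initial segment of length `n` of `x`. -/
def nd (x : ℕ → ℕ) (n : ℕ) : List ℕ := (List.range n).map x

theorem nd_length (x : ℕ → ℕ) (n : ℕ) : (nd x n).length = n := by simp [nd]

theorem nd_congr {x y : ℕ → ℕ} {n : ℕ} (h : nd x n = nd y n) {i : ℕ} (hi : i < n) : x i = y i := by
  have h1 : (nd x n)[i]? = (nd y n)[i]? := by rw [h]
  simpa [nd, hi] using h1

theorem nd_take (x : ℕ → ℕ) {n m : ℕ} (h : n ≤ m) : (nd x m).take n = nd x n := by
  simp [nd, ← List.map_take, List.take_range, h]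

/-- The branch of `x`. -/
def Br (x : ℕ → ℕ) : Set (List ℕ) := {s | s = nd x s.length}

theorem nd_mem_Br (x : ℕ → ℕ) (n : ℕ) : nd x n ∈ Br x := by
  simp [Br, nd_length]

theorem Br_inter_finite {x y : ℕ → ℕ} (h : x ≠ y) : (Br x ∩ Br y).Finite := by
  obtain ⟨i, hi⟩ := Function.ne_iff.1 h
  refine ((finite_Iic i).image (nd x)).subset ?_
  rintro s ⟨hx, hy⟩
  refine ⟨s.length, ?_, hx.symm⟩
  by_contra hcon
  rw [mem_Iic, not_le] at hcon
  have h1 : nd x s.length = nd y s.length := by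
    rw [← show s = nd x s.length from hx, ← show s = nd y s.length from hy]
  exact hi (nd_congr h1 hcon)

section

variable (B : Set (ℕ → ℕ))

/-- The ideal generated by the branches of the members of `B` and the finite sets. -/
def Small (A : Set (List ℕ)) : Prop :=
  ∃ G : Finset (ℕ → ℕ), (G : Set (ℕ → ℕ)) ⊆ B ∧ {s | s ∈ A ∧ ∀ x ∈ G, s ∉ Br x}.Finite

variable {B}

theorem Small.mono {A A' : Set (List ℕ)} (h : Small B A') (hA : A ⊆ A') : Small B A := by
  obtain ⟨G, hG, hfin⟩ := h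
  exact ⟨G, hG, hfin.subset fun s hs => ⟨hA hs.1, hs.2⟩⟩

theorem Small.union {A A' : Set (List ℕ)} (h : Small B A) (h' : Small B A') :
    Small B (A ∪ A') := by
  classical
  obtain ⟨G, hG, hfin⟩ := h
  obtain ⟨G', hG', hfin'⟩ := h'
  refine ⟨G ∪ G', ?_, (hfin.union hfin').subset ?_⟩
  · rw [Finset.coe_union]
    exact union_subset hG hG'
  · rintro s ⟨hs | hs, hs'⟩
    · exact Or.inl ⟨hs, fun x hx => hs' x (Finset.mem_union_left _ hx)⟩
    · exact Or.inr ⟨hs, fun x hx => hs' x (Finset.mem_union_right _ hx)⟩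

theorem small_of_finite {A : Set (List ℕ)} (h : A.Finite) : Small B A :=
  ⟨∅, by simp, h.subset fun s hs => hs.1⟩

theorem small_empty : Small B (∅ : Set (List ℕ)) := small_of_finite finite_empty

end

/-- Some sequence of finite sets in which every finite set occurs infinitely often. -/
theorem exists_D : ∃ D : ℕ → Finset (List ℕ), ∀ F N, ∃ n, N ≤ n ∧ D n = F := by
  obtain ⟨e, he⟩ := exists_surjective_nat (Finset (List ℕ) × ℕ)
  refine ⟨fun n => (e n).1, fun F N => ?_⟩
  by_contra hcon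
  push Not at hcon
  have h1 : (univ : Set ℕ).Finite := by
    refine ((finite_Iio N).image (fun n => (e n).2)).subset ?_
    intro k _
    obtain ⟨n, hn⟩ := he (F, k)
    refine ⟨n, ?_, by simp [hn]⟩
    by_contra hc
    exact hcon n (not_lt.1 hc) (by rw [hn])
  exact infinite_univ h1

section

variable (D : ℕ → Finset (List ℕ))

/-- The clopen set of `s`. -/
def CC (s : List ℕ) : Set (List ℕ) := {t | t = s ∨ (s.length < t.length ∧ s ∈ D t.length)}

/-- The basic open sets of the coarse topology. -/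
def OO (Q : Finset (List ℕ × Bool)) : Set (List ℕ) := {t | ∀ q ∈ Q, (t ∈ CC D q.1 ↔ q.2 = true)}

theorem OO_empty : OO D ∅ = univ := by
  ext t; simp [OO]

theorem OO_union [DecidableEq (List ℕ × Bool)] (Q Q' : Finset (List ℕ × Bool)) :
    OO D (Q ∪ Q') = OO D Q ∩ OO D Q' := by
  ext t
  simp only [OO, Finset.mem_union, mem_setOf_eq, mem_inter_iff]
  constructor
  · intro h
    exact ⟨fun q hq => h q (Or.inl hq), fun q hq => h q (Or.inr hq)⟩
  · rintro ⟨h1, h2⟩ q (hq | hq)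
    · exact h1 q hq
    · exact h2 q hq

/-- The topology of the example. -/
@[instance_reducible]
def topo (B : Set (ℕ → ℕ)) : TopologicalSpace (List ℕ) where
  IsOpen U := ∀ p ∈ U, ∃ Q, p ∈ OO D Q ∧ Small B (OO D Q \ U)
  isOpen_univ := fun p _ => ⟨∅, by rw [OO_empty]; exact mem_univ p, by
    rw [diff_univ]; exact small_empty⟩
  isOpen_inter := by
    classical
    intro U V hU hV p hp
    obtain ⟨Q, hQ, hs⟩ := hU p hp.1
    obtain ⟨Q', hQ', hs'⟩ := hV p hp.2
    refine ⟨Q ∪ Q', by rw [OO_union]; exact ⟨hQ, hQ'⟩, (hs.union hs').mono ?_⟩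
    rw [OO_union]
    rintro t ⟨⟨ht, ht'⟩, hn⟩
    by_cases h : t ∈ U
    · exact Or.inr ⟨ht', fun h' => hn ⟨h, h'⟩⟩
    · exact Or.inl ⟨ht, h⟩
  isOpen_sUnion := by
    intro S hS p hp
    obtain ⟨U, hU, hpU⟩ := hp
    obtain ⟨Q, hQ, hs⟩ := hS U hU p hpU
    exact ⟨Q, hQ, hs.mono (diff_subset_diff_right (subset_sUnion_of_mem hU))⟩

variable {D} {B : Set (ℕ → ℕ)}

theorem isOpen_OO_diff {Q : Finset (List ℕ × Bool)} {A : Set (List ℕ)} (hA : Small B (A ∩ OO D Q)) :
    IsOpen[topo D B] (OO D Q \ A) := by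
  intro p hp
  refine ⟨Q, hp.1, hA.mono ?_⟩
  rintro t ⟨h1, h2⟩
  refine ⟨?_, h1⟩
  by_contra hc
  exact h2 ⟨h1, hc⟩

theorem isOpen_OO (Q : Finset (List ℕ × Bool)) : IsOpen[topo D B] (OO D Q) := by
  have := isOpen_OO_diff (D := D) (B := B) (Q := Q) (A := ∅) (by
    rw [empty_inter]; exact small_empty)
  rwa [diff_empty] at this

theorem full (hD : ∀ F N, ∃ n, N ≤ n ∧ D n = F) {Q : Finset (List ℕ × Bool)}
    (hQ : (OO D Q).Nonempty) (N : ℕ) : ∃ n, N ≤ n ∧ ∀ t : List ℕ, t.length = n → t ∈ OO D Q := by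
  classical
  obtain ⟨p, hp⟩ := hQ
  obtain ⟨n, hn, hDn⟩ := hD ((Q.filter fun q => q.2 = true).image Prod.fst)
    (max N ((Q.sup fun q => q.1.length) + 1))
  refine ⟨n, (le_max_left _ _).trans hn, fun t ht q hq => ?_⟩
  have hlen : q.1.length < n := by
    have h1 : q.1.length ≤ Q.sup fun q => q.1.length :=
      Finset.le_sup (f := fun q : List ℕ × Bool => q.1.length) hq
    have h2 := (le_max_right N ((Q.sup fun q => q.1.length) + 1)).trans hn
    omega
  constructor
  · intro htC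
    rcases htC with h | ⟨_, h⟩
    · rw [← h, ht] at hlen
      exact absurd hlen (lt_irrefl n)
    · rw [ht, hDn, Finset.mem_image] at h
      obtain ⟨q', hq', hqq⟩ := h
      rw [Finset.mem_filter] at hq'
      have h3 : p ∈ CC D q'.1 := (hp q' hq'.1).2 hq'.2
      rw [hqq] at h3
      exact (hp q hq).1 h3
  · intro h
    refine Or.inr ⟨by rw [ht]; exact hlen, ?_⟩
    rw [ht, hDn]
    exact Finset.mem_image.2 ⟨q, Finset.mem_filter.2 ⟨hq, h⟩, rfl⟩

theorem t2 : @T2Space (List ℕ) (topo D B) := by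
  classical
  have key : ∀ s t : List ℕ, s ≠ t → s.length ≤ t.length → ∃ U V : Set (List ℕ),
      IsOpen[topo D B] U ∧ IsOpen[topo D B] V ∧ s ∈ U ∧ t ∈ V ∧ Disjoint U V := by
    intro s t hst hlen
    refine ⟨OO D {(t, false)}, OO D {(t, true)}, isOpen_OO _, isOpen_OO _, ?_, ?_, ?_⟩
    · intro q hq
      rw [Finset.mem_singleton] at hq
      subst hq
      constructor
      · rintro (h | ⟨h, _⟩)
        · exact absurd h hst
        · exact absurd h (not_lt.2 hlen)
      · intro h; simp at h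
    · intro q hq
      rw [Finset.mem_singleton] at hq
      subst hq
      exact ⟨fun _ => rfl, fun _ => Or.inl rfl⟩
    · rw [Set.disjoint_left]
      intro x hx hx'
      have h1 := (hx (t, false) (Finset.mem_singleton_self _)).1
        ((hx' (t, true) (Finset.mem_singleton_self _)).2 rfl)
      simp at h1
  letI := topo D B
  refine ⟨fun s t hst => ?_⟩
  rcases le_total s.length t.length with h | h
  · exact key s t hst h
  · obtain ⟨U, V, h1, h2, h3, h4, h5⟩ := key t s hst.symm h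
    exact ⟨V, U, h2, h1, h4, h3, h5.symm⟩

theorem level_infinite (n : ℕ) (hn : 1 ≤ n) : {t : List ℕ | t.length = n}.Infinite := by
  refine infinite_of_injective_forall_mem (f := fun k : ℕ => k :: List.replicate (n - 1) 0) ?_ ?_
  · intro a b hab
    simpa using hab
  · intro k
    simp only [mem_setOf_eq, List.length_cons, List.length_replicate]
    omega

theorem not_small_OO (hD : ∀ F N, ∃ n, N ≤ n ∧ D n = F) {Q : Finset (List ℕ × Bool)}
    (hQ : (OO D Q).Nonempty) : ¬ Small B (OO D Q) := by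
  rintro ⟨G, _, hfin⟩
  obtain ⟨n, hn, hlev⟩ := full hD hQ 1
  have h1 : ({t : List ℕ | t.length = n} \ (fun x => nd x n) '' (G : Set (ℕ → ℕ))).Infinite :=
    (level_infinite n hn).sdiff (G.finite_toSet.image _)
  refine h1 (hfin.subset ?_)
  rintro t ⟨ht, ht'⟩
  refine ⟨hlev t ht, fun x hx hxt => ht' ⟨x, hx, ?_⟩⟩
  have h2 : t = nd x t.length := hxt
  simp only
  rw [← show t.length = n from ht]
  exact h2.symm

theorem dense_iff (hD : ∀ F N, ∃ n, N ≤ n ∧ D n = F) (E : Set (List ℕ)) :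
    @Dense _ (topo D B) E ↔ ∀ Q, (OO D Q).Nonempty → ¬ Small B (E ∩ OO D Q) := by
  letI := topo D B
  constructor
  · intro hE Q hQ hs
    have hne : (OO D Q \ E).Nonempty := by
      by_contra hcon
      rw [not_nonempty_iff_eq_empty, diff_eq_empty] at hcon
      exact not_small_OO hD hQ (hs.mono fun t ht => ⟨hcon ht, ht⟩)
    obtain ⟨x, hx, hxE⟩ := hE.inter_open_nonempty _ (isOpen_OO_diff hs) hne
    exact hx.2 hxE
  · intro h
    rw [dense_iff_inter_open]
    rintro U hU ⟨p, hp⟩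
    obtain ⟨Q, hpQ, hs⟩ := hU p hp
    by_contra hcon
    refine h Q ⟨p, hpQ⟩ (hs.mono ?_)
    rintro t ⟨ht, ht'⟩
    exact ⟨ht', fun h' => hcon ⟨t, h', ht⟩⟩

/-! ### The player who picks open sets has no winning strategy -/

theorem Br_OO_infinite (hD : ∀ F N, ∃ n, N ≤ n ∧ D n = F) {Q : Finset (List ℕ × Bool)}
    (hQ : (OO D Q).Nonempty) (x : ℕ → ℕ) : (Br x ∩ OO D Q).Infinite := by
  have h1 : ({n | ∀ t : List ℕ, t.length = n → t ∈ OO D Q} : Set ℕ).Infinite := by
    rw [Set.infinite_iff_exists_gt]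
    intro N
    obtain ⟨n, hn, h⟩ := full hD hQ (N + 1)
    exact ⟨n, h, hn⟩
  have hinj : Function.Injective (nd x) := fun a b hab => by
    rw [← nd_length x a, hab, nd_length]
  refine (h1.image hinj.injOn).mono ?_
  rintro _ ⟨n, hn, rfl⟩
  exact ⟨nd_mem_Br x n, hn _ (nd_length x n)⟩

theorem open_loses (hD : ∀ F N, ∃ n, N ≤ n ∧ D n = F) (hB : ¬ B.Countable)
    (σ : List (List ℕ) → Set (List ℕ)) (hσ : ∀ s, IsOpen[topo D B] (σ s) ∧ (σ s).Nonempty) :
    ∃ p : ℕ → List ℕ, (∀ n, p n ∈ σ (List.ofFn fun i : Fin n => p i)) ∧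
      ¬ @Dense _ (topo D B) (range p) := by
  classical
  have h1 : ∀ s, ∃ (Q : Finset (List ℕ × Bool)) (G : Finset (ℕ → ℕ)), (OO D Q).Nonempty ∧
      (G : Set (ℕ → ℕ)) ⊆ B ∧ {t | t ∈ OO D Q \ σ s ∧ ∀ x ∈ G, t ∉ Br x}.Finite := by
    intro s
    obtain ⟨ho, p, hp⟩ := hσ s
    obtain ⟨Q, hpQ, G, hG, hfin⟩ := ho p hp
    exact ⟨Q, G, ⟨p, hpQ⟩, hG, hfin⟩
  choose Q G hQ hGB hfin using h1
  have h2 : ∃ x ∈ B, ∀ s, x ∉ G s := by
    by_contra hcon
    push Not at hcon
    refine hB ((countable_iUnion fun s => (G s).countable_toSet).mono fun x hx => ?_)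
    obtain ⟨s, hs⟩ := hcon x hx
    exact mem_iUnion.2 ⟨s, hs⟩
  obtain ⟨x, hxB, hx⟩ := h2
  have h3 : ∀ s, (Br x ∩ σ s).Nonempty := by
    intro s
    have hfin2 : (Br x ∩ (OO D (Q s) \ σ s)).Finite := by
      refine ((hfin s).union ((G s).finite_toSet.biUnion fun y hy =>
        Br_inter_finite (x := x) (y := y) fun h => hx s (h ▸ hy))).subset ?_
      rintro t ⟨ht, ht'⟩
      by_cases hc : ∀ y ∈ G s, t ∉ Br y
      · exact Or.inl ⟨ht', hc⟩
      · push Not at hc
        obtain ⟨y, hy, hty⟩ := hc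
        refine Or.inr ?_
        simp only [mem_iUnion]
        exact ⟨y, hy, ht, hty⟩
    obtain ⟨t, ⟨ht, ht'⟩, hn⟩ := ((Br_OO_infinite hD (hQ s) x).sdiff hfin2).nonempty
    refine ⟨t, ht, ?_⟩
    by_contra hc
    exact hn ⟨ht, ht', hc⟩
  choose pk hpk using h3
  -- the play
  let H : ℕ → List (List ℕ) := fun n => Nat.rec [] (fun _ h => h ++ [pk h]) n
  have hH : ∀ n, H (n + 1) = H n ++ [pk (H n)] := fun n => rfl
  have hHo : ∀ n, H n = List.ofFn fun i : Fin n => pk (H i) := by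
    intro n
    induction n with
    | zero => simp [H]
    | succ n ih =>
      rw [hH, List.ofFn_succ_last]
      congr 1
  refine ⟨fun n => pk (H n), fun n => ?_, fun hdense => ?_⟩
  · rw [← hHo n]
    exact (hpk (H n)).2
  · refine (dense_iff hD _).1 hdense ∅ (by rw [OO_empty]; exact univ_nonempty) ?_
    refine ⟨{x}, by simpa using hxB, finite_empty.subset ?_⟩
    rintro t ⟨⟨⟨n, rfl⟩, _⟩, ht⟩
    exact ht x (Finset.mem_singleton_self x) (hpk (H n)).1

/-! ### The player who picks points has no winning strategy -/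

/-- The history of the play coded by `z`. -/
def hist (e : List (Set (List ℕ)) → ℕ → Set (List ℕ)) (z : ℕ → ℕ) : ℕ → List (Set (List ℕ))
  | 0 => []
  | n + 1 => hist e z n ++ [e (hist e z n) (z n)]

theorem hist_congr (e : List (Set (List ℕ)) → ℕ → Set (List ℕ)) {z z' : ℕ → ℕ} {n : ℕ}
    (h : ∀ i < n, z i = z' i) : hist e z n = hist e z' n := by
  induction n with
  | zero => rfl
  | succ n ih => rw [hist, hist, ih fun i hi => h i (by omega), h n (by omega)]

theorem hist_ofFn (e : List (Set (List ℕ)) → ℕ → Set (List ℕ)) (z : ℕ → ℕ) (n : ℕ) :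
    hist e z n = List.ofFn fun i : Fin n => e (hist e z i) (z i) := by
  induction n with
  | zero => simp [hist]
  | succ n ih =>
    rw [hist, List.ofFn_succ_last]
    congr 1

theorem isClosed_forall_hist {α : Type} (b : (ℕ → ℕ) → ℕ → α)
    (hb : ∀ z z' : ℕ → ℕ, ∀ n, (∀ i ≤ n, z i = z' i) → b z n = b z' n) (P : α → Prop) :
    IsClosed {z : ℕ → ℕ | ∀ n, P (b z n)} := by
  have : {z : ℕ → ℕ | ∀ n, P (b z n)} = ⋂ n, {z | P (b z n)} := by
    ext z; simp
  rw [this]
  refine isClosed_iInter fun n => ?_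
  rw [← isOpen_compl_iff, isOpen_pi_iff]
  intro z hz
  refine ⟨Finset.range (n + 1), fun i => {z i}, fun i _ => ⟨isOpen_discrete _, rfl⟩, ?_⟩
  intro z' hz' hP
  refine hz ?_
  have : b z n = b z' n := hb z z' n fun i hi => by
    have := hz' i (Finset.mem_coe.2 (Finset.mem_range.2 (by omega)))
    exact (mem_singleton_iff.1 this).symm
  show P (b z n)
  rw [this]
  exact hP

/-- A nonempty open set of `ℕ → ℕ` contains a cylinder around each of its points. -/
theorem exists_cyl {U : Set (ℕ → ℕ)} (hU : IsOpen U) {z : ℕ → ℕ} (hz : z ∈ U) :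
    ∃ n, ∀ z' : ℕ → ℕ, (∀ i < n, z' i = z i) → z' ∈ U := by
  obtain ⟨I, u, hu, hIu⟩ := isOpen_pi_iff.1 hU z hz
  refine ⟨I.sup id + 1, fun z' hz' => hIu fun i hi => ?_⟩
  rw [hz' i (Nat.lt_succ_of_le (Finset.le_sup (f := id) hi))]
  exact (hu i hi).2

theorem isOpen_cyl (z : ℕ → ℕ) (n : ℕ) : IsOpen {z' : ℕ → ℕ | ∀ i < n, z' i = z i} := by
  have : {z' : ℕ → ℕ | ∀ i < n, z' i = z i} = ⋂ i ∈ Finset.range n, {z' | z' i = z i} := by
    ext z'; simp
  rw [this]
  refine isOpen_biInter_finset fun i _ => ?_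
  have h2 : IsOpen ((fun y : ℕ → ℕ => y i) ⁻¹' {z i}) :=
    (isOpen_discrete _).preimage (continuous_apply i)
  exact h2

theorem point_loses (hD : ∀ F N, ∃ n, N ≤ n ∧ D n = F) (hB : Lam B)
    (π : List (Set (List ℕ)) → List ℕ)
    (hπ : ∀ h V, IsOpen[topo D B] V → V.Nonempty → π (h ++ [V]) ∈ V) :
    ∃ V : ℕ → Set (List ℕ), (∀ n, IsOpen[topo D B] (V n) ∧ (V n).Nonempty) ∧
      @Dense _ (topo D B) (range fun n => π (List.ofFn fun i : Fin (n + 1) => V i)) := by
  classical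
  -- enumerate the possible answers
  have he : ∀ h : List (Set (List ℕ)), ∃ e : ℕ → Set (List ℕ),
      (∀ n, IsOpen[topo D B] (e n) ∧ (e n).Nonempty) ∧
      ∀ V, IsOpen[topo D B] V → V.Nonempty → ∃ n, π (h ++ [e n]) = π (h ++ [V]) := by
    intro h
    let S : Set (List ℕ) := {x | ∃ V, (IsOpen[topo D B] V ∧ V.Nonempty) ∧ π (h ++ [V]) = x}
    have hne : S.Nonempty := ⟨_, univ, ⟨@isOpen_univ _ (topo D B), univ_nonempty⟩, rfl⟩
    obtain ⟨g, hg⟩ := (to_countable S).exists_eq_range hne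
    have hgS : ∀ n, g n ∈ S := fun n => hg ▸ mem_range_self n
    choose e he1 he2 using hgS
    refine ⟨e, he1, fun V hV hVne => ?_⟩
    have : π (h ++ [V]) ∈ S := ⟨V, ⟨hV, hVne⟩, rfl⟩
    rw [hg] at this
    obtain ⟨n, hn⟩ := this
    exact ⟨n, by rw [he2, hn]⟩
  choose e he1 he2 using he
  let b : (ℕ → ℕ) → ℕ → List ℕ := fun z n => π (hist e z (n + 1))
  have hb : ∀ z z' : ℕ → ℕ, ∀ n, (∀ i ≤ n, z i = z' i) → b z n = b z' n := by
    intro z z' n h
    show π _ = π _
    rw [hist_congr e (fun i hi => h i (Nat.lt_succ_iff.1 hi))]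
  -- it suffices to find a dense play
  suffices hgood : ∃ z, @Dense _ (topo D B) (range (b z)) by
    obtain ⟨z, hz⟩ := hgood
    refine ⟨fun n => e (hist e z n) (z n), fun n => he1 _ _, ?_⟩
    have h1 : (fun n => π (List.ofFn fun i : Fin (n + 1) => e (hist e z i) (z i))) = b z := by
      funext n
      rw [← hist_ofFn]
    rw [h1]
    exact hz
  by_contra hno
  push Not at hno
  -- the pieces
  let A : Finset (List ℕ × Bool) × ℕ × Finset (List ℕ) → Set (ℕ → ℕ) := fun j =>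
    {z | (OO D j.1).Nonempty ∧ ∃ G : Finset (ℕ → ℕ), (G : Set (ℕ → ℕ)) ⊆ B ∧ G.card = j.2.1 ∧
      (∀ x ∈ G, (range (b z) ∩ OO D j.1 ∩ Br x).Infinite) ∧
      ∀ n, b z n ∈ OO D j.1 → b z n ∈ j.2.2 ∨ ∃ x ∈ G, b z n ∈ Br x}
  have hcov : (⋃ j, A j) = univ := by
    rw [eq_univ_iff_forall]
    intro z
    have h1 := hno z
    rw [dense_iff hD] at h1
    push Not at h1
    obtain ⟨Q, hQ, G, hG, hfin⟩ := h1
    have hfin2 : {t | t ∈ range (b z) ∩ OO D Q ∧
        ∀ x ∈ G.filter (fun x => (range (b z) ∩ OO D Q ∩ Br x).Infinite), t ∉ Br x}.Finite := by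
      have h2 : (⋃ x ∈ (G.filter fun x => ¬ (range (b z) ∩ OO D Q ∩ Br x).Infinite : Set (ℕ → ℕ)),
          (range (b z) ∩ OO D Q ∩ Br x)).Finite := by
        refine (Finset.finite_toSet _).biUnion fun x hx => ?_
        have := (Finset.mem_filter.1 (Finset.mem_coe.1 hx)).2
        exact not_not.1 this
      refine (hfin.union h2).subset ?_
      rintro t ⟨ht, ht'⟩
      by_cases hc : ∀ x ∈ G, t ∉ Br x
      · exact Or.inl ⟨ht, hc⟩
      · push Not at hc
        obtain ⟨x, hx, htx⟩ := hc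
        refine Or.inr ?_
        simp only [mem_iUnion]
        refine ⟨x, ?_, ht, htx⟩
        rw [Finset.mem_coe, Finset.mem_filter]
        refine ⟨hx, fun hinf => ht' x (Finset.mem_filter.2 ⟨hx, hinf⟩) htx⟩
    refine mem_iUnion.2 ⟨(Q, (G.filter fun x => (range (b z) ∩ OO D Q ∩ Br x).Infinite).card,
      hfin2.toFinset), hQ, G.filter (fun x => (range (b z) ∩ OO D Q ∩ Br x).Infinite), ?_, rfl,
      fun x hx => (Finset.mem_filter.1 hx).2, ?_⟩
    · intro x hx
      exact hG (Finset.mem_coe.2 (Finset.mem_filter.1 (Finset.mem_coe.1 hx)).1)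
    · intro n hn
      by_cases hc : ∃ x ∈ G.filter (fun x => (range (b z) ∩ OO D Q ∩ Br x).Infinite),
          b z n ∈ Br x
      · exact Or.inr hc
      · push Not at hc
        refine Or.inl ?_
        simp only [Set.Finite.mem_toFinset]
        exact ⟨⟨mem_range_self n, hn⟩, hc⟩
  -- one piece is not meagre
  obtain ⟨j, hj⟩ : ∃ j, ¬ IsMeagre (A j) := by
    by_contra hcon
    push Not at hcon
    have h1 : IsMeagre (⋃ j, A j) := isMeagre_iUnion hcon
    rw [hcov] at h1
    exact not_isMeagre_of_isOpen isOpen_univ univ_nonempty h1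
  obtain ⟨Q, g, R⟩ := j
  have hQ : (OO D Q).Nonempty := by
    by_contra hcon
    apply hj
    have : A (Q, g, R) = ∅ := by
      rw [eq_empty_iff_forall_notMem]
      rintro z ⟨h, _⟩
      exact hcon h
    rw [this]
    exact IsMeagre.empty
  have hGex : ∀ z, ∃ G : Finset (ℕ → ℕ), z ∈ A (Q, g, R) → (G : Set (ℕ → ℕ)) ⊆ B ∧ G.card = g ∧
      (∀ x ∈ G, (range (b z) ∩ OO D Q ∩ Br x).Infinite) ∧
      ∀ n, b z n ∈ OO D Q → b z n ∈ R ∨ ∃ x ∈ G, b z n ∈ Br x := by
    intro z
    by_cases hz : z ∈ A (Q, g, R)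
    · obtain ⟨_, G, hG⟩ := hz
      exact ⟨G, fun _ => hG⟩
    · exact ⟨∅, fun h => absurd h hz⟩
  choose G hG using hGex
  -- a countable dense subset
  obtain ⟨s, hsc, hsd⟩ := TopologicalSpace.exists_countable_dense (A (Q, g, R))
  let C : Set (ℕ → ℕ) := ⋃ w ∈ s, (G w.1 : Set (ℕ → ℕ))
  have hCc : C.Countable := hsc.biUnion fun w _ => (G w.1).countable_toSet
  have hCB : C ⊆ B := by
    intro x hx
    simp only [C, mem_iUnion] at hx
    obtain ⟨w, _, hxw⟩ := hx
    exact (hG w.1 w.2).1 hxw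
  obtain ⟨F, hF1, hF2⟩ := hB C hCB hCc
  haveI : Countable C := hCc.to_subtype
  let Z1 : Finset C → Set (ℕ → ℕ) := fun K =>
    {z | ∀ n, b z n ∈ OO D Q → b z n ∈ R ∨ ∃ x ∈ K, b z n ∈ Br x.1}
  let Z2 : ℕ → Set (ℕ → ℕ) := fun j => {z | z ∈ A (Q, g, R) ∧ ∃ y ∈ G z, y ∈ F j}
  have hsub : A (Q, g, R) ⊆ (⋃ K, Z1 K) ∪ ⋃ j, Z2 j := by
    intro z hz
    by_cases hc : ∀ x ∈ G z, x ∈ C
    · left
      refine mem_iUnion.2 ⟨(G z).attach.image fun x => ⟨x.1, hc x.1 x.2⟩, fun n hn => ?_⟩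
      rcases (hG z hz).2.2.2 n hn with h | ⟨x, hx, hxb⟩
      · exact Or.inl h
      · exact Or.inr ⟨⟨x, hc x hx⟩, Finset.mem_image.2 ⟨⟨x, hx⟩, Finset.mem_attach _ _, rfl⟩, hxb⟩
    · right
      push Not at hc
      obtain ⟨x, hx, hxC⟩ := hc
      obtain ⟨j, hj⟩ := hF1 x ((hG z hz).1 hx) hxC
      exact mem_iUnion.2 ⟨j, hz, x, hx, hj⟩
  by_cases hcase : ∃ K, ¬ IsMeagre (Z1 K)
  · obtain ⟨K, hK⟩ := hcase
    have hcl : IsClosed (Z1 K) :=
      isClosed_forall_hist b hb (fun t => t ∈ OO D Q → t ∈ R ∨ ∃ x ∈ K, t ∈ Br x.1)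
    have hint : (interior (Z1 K)).Nonempty := by
      by_contra hcon
      rw [not_nonempty_iff_eq_empty] at hcon
      exact hK (hcl.isNowhereDense_iff.2 hcon).isMeagre
    obtain ⟨z0, hz0⟩ := hint
    obtain ⟨n, hn⟩ := exists_cyl isOpen_interior hz0
    -- the possible answers after `n` moves
    let S : Set (List ℕ) := {x | ∃ k, π (hist e z0 n ++ [e (hist e z0 n) k]) = x}
    have hS : @Dense _ (topo D B) S := by
      letI := topo D B
      rw [dense_iff_inter_open]
      intro V hV hVne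
      obtain ⟨k, hk⟩ := he2 (hist e z0 n) V hV hVne
      exact ⟨_, hπ _ V hV hVne, k, hk⟩
    have hSs := (dense_iff hD S).1 hS Q hQ
    apply hSs
    refine ⟨K.image Subtype.val, ?_, R.finite_toSet.subset ?_⟩
    · intro x hx
      obtain ⟨y, _, rfl⟩ := Finset.mem_image.1 (Finset.mem_coe.1 hx)
      exact hCB y.2
    · rintro t ⟨⟨⟨k, rfl⟩, htQ⟩, ht⟩
      have h1 : Function.update z0 n k ∈ Z1 K := interior_subset (hn _ fun i hi => by
        rw [Function.update_of_ne hi.ne])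
      have h2 : b (Function.update z0 n k) n = π (hist e z0 n ++ [e (hist e z0 n) k]) := by
        show π (hist e (Function.update z0 n k) (n + 1)) = _
        rw [hist, hist_congr e (z' := z0) (fun i hi => by rw [Function.update_of_ne hi.ne]),
          Function.update_self]
      have h3 := h1 n
      rw [h2] at h3
      rcases h3 htQ with h | ⟨x, hx, hxb⟩
      · exact h
      · exact absurd hxb (ht x.1 (Finset.mem_image_of_mem _ hx))
  · push Not at hcase
    have hcase2 : ∃ j, ¬ IsMeagre (Z2 j) := by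
      by_contra hcon
      push Not at hcon
      exact hj (((isMeagre_iUnion hcase).union (isMeagre_iUnion hcon)).mono hsub)
    obtain ⟨j, hj2⟩ := hcase2
    have hint : (interior (closure (Z2 j))).Nonempty := by
      by_contra hcon
      rw [not_nonempty_iff_eq_empty] at hcon
      exact hj2 (IsNowhereDense.isMeagre hcon)
    obtain ⟨z1, hz1U, hz1⟩ : ∃ z, z ∈ interior (closure (Z2 j)) ∧ z ∈ Z2 j := by
      obtain ⟨w, hw⟩ := hint
      obtain ⟨z, hz, hz'⟩ := mem_closure_iff.1 (interior_subset hw) _ isOpen_interior hw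
      exact ⟨z, hz, hz'⟩
    obtain ⟨w, hwU, hws⟩ := hsd.inter_open_nonempty
      (Subtype.val ⁻¹' interior (closure (Z2 j)))
      (isOpen_interior.preimage continuous_subtype_val) ⟨⟨z1, hz1.1⟩, hz1U⟩
    obtain ⟨hw1, hw2, hw3, hw4⟩ := hG w.1 w.2
    -- separate the members of `G w` from `F j` and from each other
    have hsep : ∀ x : ℕ → ℕ, ∃ l, x ∈ G w.1 → ∀ y ∈ F j, ∃ i < l, y i ≠ x i := by
      intro x
      by_cases hx : x ∈ G w.1
      · obtain ⟨l, hl⟩ := hF2 j x (by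
          simp only [C, mem_iUnion]
          exact ⟨w, hws, hx⟩)
        exact ⟨l, fun _ => hl⟩
      · exact ⟨0, fun h => absurd h hx⟩
    choose l hl using hsep
    have hsep2 : ∀ x y : ℕ → ℕ, ∃ m, x ≠ y → ∃ i < m, x i ≠ y i := by
      intro x y
      by_cases hxy : x = y
      · exact ⟨0, fun h => absurd hxy h⟩
      · obtain ⟨i, hi⟩ := Function.ne_iff.1 hxy
        exact ⟨i + 1, fun _ => ⟨i, Nat.lt_succ_self i, hi⟩⟩
    choose m hm using hsep2
    let L : ℕ := (G w.1).sup l + (G w.1).sup (fun x => (G w.1).sup (m x)) +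
      (R.sup List.length + 1)
    have hL1 : ∀ x ∈ G w.1, l x ≤ L := by
      intro x hx
      have := Finset.le_sup (f := l) hx
      simp only [L]; omega
    have hL2 : ∀ x ∈ G w.1, ∀ y ∈ G w.1, m x y ≤ L := by
      intro x hx y hy
      have h1 := Finset.le_sup (f := m x) hy
      have h2 := Finset.le_sup (f := fun x => (G w.1).sup (m x)) hx
      simp only [L]; omega
    have hL3 : ∀ t ∈ R, t.length < L := by
      intro t ht
      have := Finset.le_sup (f := List.length) ht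
      simp only [L]; omega
    have hlong : ∀ x : ℕ → ℕ, ∃ n, x ∈ G w.1 → b w.1 n ∈ OO D Q ∧ b w.1 n ∈ Br x ∧
        L ≤ (b w.1 n).length := by
      intro x
      by_cases hx : x ∈ G w.1
      · have hfin : {t : List ℕ | t ∈ Br x ∧ t.length < L}.Finite := by
          refine ((finite_Iio L).image (nd x)).subset ?_
          rintro t ⟨ht, htL⟩
          exact ⟨t.length, htL, ht.symm⟩
        obtain ⟨t, ⟨⟨⟨n, rfl⟩, htQ⟩, htx⟩, hn⟩ := ((hw3 x hx).sdiff hfin).nonempty
        refine ⟨n, fun _ => ⟨htQ, htx, ?_⟩⟩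
        by_contra hc
        exact hn ⟨htx, not_le.1 hc⟩
      · exact ⟨0, fun h => absurd h hx⟩
    choose nn hnn using hlong
    have hwcl : w.1 ∈ closure (Z2 j) := interior_subset hwU
    obtain ⟨z, hzc, hz⟩ := mem_closure_iff.1 hwcl _ (isOpen_cyl w.1 ((G w.1).sup nn + 1))
      (fun i _ => rfl)
    obtain ⟨hzA, y, hyG, hyF⟩ := hz
    obtain ⟨hz1, hz2, hz3, hz4⟩ := hG z hzA
    have hmap : ∀ x : ℕ → ℕ, ∃ x', x ∈ G w.1 → x' ∈ G z ∧ ∀ i < L, x' i = x i := by
      intro x
      by_cases hx : x ∈ G w.1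
      · obtain ⟨h1, h2, h3⟩ := hnn x hx
        have h4 : b z (nn x) = b w.1 (nn x) := hb _ _ _ fun i hi => hzc i
          (Nat.lt_succ_of_le (hi.trans (Finset.le_sup (f := nn) hx)))
        rcases hz4 (nn x) (h4 ▸ h1) with h5 | ⟨x', hx', hx'b⟩
        · rw [h4] at h5
          exact absurd (hL3 _ h5) (not_lt.2 h3)
        · refine ⟨x', fun _ => ⟨hx', fun i hi => ?_⟩⟩
          rw [h4] at hx'b
          have h6 : nd x' (b w.1 (nn x)).length = nd x (b w.1 (nn x)).length := by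
            rw [← show b w.1 (nn x) = nd x' _ from hx'b, ← show b w.1 (nn x) = nd x _ from h2]
          exact nd_congr h6 (hi.trans_le h3)
      · exact ⟨x, fun h => absurd h hx⟩
    choose φ hφ using hmap
    have hinj : Set.InjOn φ (G w.1 : Set (ℕ → ℕ)) := by
      intro x hx x' hx' hxx
      by_contra hne
      obtain ⟨i, hi, hi2⟩ := hm x x' hne
      have hiL : i < L := hi.trans_le (hL2 x hx x' hx')
      apply hi2
      rw [← (hφ x hx).2 i hiL, ← (hφ x' hx').2 i hiL, hxx]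
    have himg : (G w.1).image φ = G z := by
      refine Finset.eq_of_subset_of_card_le ?_ ?_
      · intro x hx
        obtain ⟨x0, hx0, rfl⟩ := Finset.mem_image.1 hx
        exact (hφ x0 hx0).1
      · rw [Finset.card_image_of_injOn hinj, hw2, hz2]
    rw [← himg] at hyG
    obtain ⟨x, hx, rfl⟩ := Finset.mem_image.1 hyG
    obtain ⟨i, hi, hne⟩ := hl x hx _ hyF
    exact hne ((hφ x hx).2 i (hi.trans_le (hL1 x hx)))

end

end Pool.Agent.H860R2.OP
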