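import Mathlib

/-!
Wijsman hyperspaces of completely metrizable spaces are strongly `α`-favorable.
-/

set_option autoImplicit false
set_option linter.style.haveILetI false

open Set Filter Topology Metric
open scoped ENNReal

namespace Pool.Agent.H860R2.Wijsman

universe u

/-! ### Sizes of sets -/

/-- The data of a complete metric that are used. -/
structure SizeData (X : Type u) [TopologicalSpace X] where
  sz : Set X → ℝ≥0∞
  mono : ∀ {s t : Set X}, s ⊆ t → sz s ≤ sz t
  pos : ∀ {s : Set X}, s.Nontrivial → 0 < sz s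
  nontrivial : ∀ {s : Set X}, 0 < sz s → s.Nontrivial
  small : ∀ (x : X) (e : ℝ≥0∞), 0 < e → ∃ O : Set X, IsOpen O ∧ x ∈ O ∧ sz O ≤ e
  iso : ∀ x : X, IsOpen ({x} : Set X) → ∃ e : ℝ≥0∞, 0 < e ∧
    ∀ G : Set X, x ∈ G → G.Nontrivial → e ≤ sz G
  complete : ∀ (Q : ℕ → Set X) (q : ℕ → X), (∀ m, Q (m + 1) ⊆ Q m) → (∀ m, q m ∈ Q m) →
    Tendsto (fun m => sz (Q m)) atTop (𝓝 0) → ∃ p, Tendsto q atTop (𝓝 p)

theorem exists_sizeData (X : Type u) [TopologicalSpace X]
    [TopologicalSpace.IsCompletelyMetrizableSpace X] : Nonempty (SizeData X) := by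
  letI := TopologicalSpace.upgradeIsCompletelyMetrizable X
  refine ⟨⟨fun s => Metric.ediam s, fun h => ediam_mono h, fun h => ediam_pos_iff.2 h,
    fun h => ediam_pos_iff.1 h, ?_, ?_, ?_⟩⟩
  · intro x e he
    refine ⟨Metric.eball x (e / 2), Metric.isOpen_eball, Metric.mem_eball_self
      (ENNReal.half_pos he.ne'), ?_⟩
    refine ediam_le fun y hy z hz => ?_
    calc edist y z ≤ edist y x + edist x z := edist_triangle _ _ _
      _ ≤ e / 2 + e / 2 := by
        refine add_le_add (le_of_lt hy) ?_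
        rw [edist_comm]
        exact le_of_lt hz
      _ = e := ENNReal.add_halves e
  · intro x hx
    obtain ⟨r, hr, hball⟩ := EMetric.isOpen_iff.1 hx x rfl
    refine ⟨r, hr, fun G hxG hG => ?_⟩
    obtain ⟨y, hy, hyx⟩ := hG.exists_ne x
    by_contra hcon
    rw [not_le] at hcon
    have h1 : edist y x < r := (edist_le_ediam_of_mem hy hxG).trans_lt hcon
    exact hyx (hball h1)
  · intro Q q hQ hq hlim
    have hanti : Antitone Q := antitone_nat_of_succ_le hQ
    have hc : CauchySeq q := by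
      rw [EMetric.cauchySeq_iff]
      intro ε hε
      have := (hlim.eventually (gt_mem_nhds hε)).exists
      obtain ⟨N, hN⟩ := this
      refine ⟨N, fun m hm n hn => ?_⟩
      exact (edist_le_ediam_of_mem (hanti hm (hq m)) (hanti hn (hq n))).trans_lt hN
    exact cauchySeq_tendsto_of_complete hc

/-! ### The hyperspace -/

/-- The nonempty closed subsets of `X`. -/
def Hyp (X : Type u) [TopologicalSpace X] : Type u := {A : Set X // IsClosed A ∧ A.Nonempty}

/-- The Wijsman topology of the metric `d`: the weakest topology on the family of the nonempty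
closed sets making all functions `A ↦ d(x, A)` continuous. -/
@[instance_reducible]
noncomputable def wijsman (X : Type u) [t : TopologicalSpace X] (d : MetricSpace X) :
    TopologicalSpace (Hyp X) :=
  ⨅ x : X, TopologicalSpace.induced
    (fun A : Hyp X => @Metric.infDist X d.toPseudoMetricSpace x A.1) inferInstance

section

variable {X : Type u} [d : MetricSpace X]

theorem isOpen_lt (x : X) (r : ℝ) : IsOpen[wijsman X d] {A : Hyp X | infDist x A.1 < r} := by
  have h : Continuous[wijsman X d, inferInstance] (fun A : Hyp X => infDist x A.1) := by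
    rw [continuous_iff_le_induced]
    exact iInf_le _ x
  exact @IsOpen.preimage _ _ (wijsman X d) _ _ h _ isOpen_Iio

theorem isOpen_gt (x : X) (r : ℝ) : IsOpen[wijsman X d] {A : Hyp X | r < infDist x A.1} := by
  have h : Continuous[wijsman X d, inferInstance] (fun A : Hyp X => infDist x A.1) := by
    rw [continuous_iff_le_induced]
    exact iInf_le _ x
  exact @IsOpen.preimage _ _ (wijsman X d) _ _ h _ isOpen_Ioi

/-- Basic sets: the hits `(a, R)` and the misses `(y, s)`. -/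
def basic (S T : Finset (X × ℝ)) : Set (Hyp X) :=
  {B | (∀ t ∈ S, infDist t.1 B.1 < t.2) ∧ ∀ t ∈ T, t.2 < infDist t.1 B.1}

theorem isOpen_basic (S T : Finset (X × ℝ)) : IsOpen[wijsman X d] (basic S T) := by
  letI := wijsman X d
  have : basic S T = (⋂ t ∈ S, {B : Hyp X | infDist t.1 B.1 < t.2}) ∩
      ⋂ t ∈ T, {B : Hyp X | t.2 < infDist t.1 B.1} := by
    ext B
    simp [basic]
  rw [this]
  exact (isOpen_biInter_finset fun t _ => isOpen_lt t.1 t.2).inter
    (isOpen_biInter_finset fun t _ => isOpen_gt t.1 t.2)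

theorem exists_basic (A : Hyp X) (U : Set (Hyp X)) (hU : IsOpen[wijsman X d] U) (hA : A ∈ U) :
    ∃ S T : Finset (X × ℝ), A ∈ basic S T ∧ basic S T ⊆ U := by
  classical
  letI := wijsman X d
  have h1 : U ∈ 𝓝 A := hU.mem_nhds hA
  have h2 : 𝓝 A = ⨅ x : X, comap (fun B : Hyp X => infDist x B.1) (𝓝 (infDist x A.1)) := by
    show @nhds _ (wijsman X d) A = _
    unfold wijsman
    rw [nhds_iInf]
    simp only [nhds_induced]
  rw [h2, Filter.mem_iInf] at h1
  obtain ⟨I, hI, V, hV, rfl⟩ := h1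
  have h3 : ∀ i : I, ∃ ε > 0, ∀ B : Hyp X, infDist i.1 A.1 - ε < infDist i.1 B.1 →
      infDist i.1 B.1 < infDist i.1 A.1 + ε → B ∈ V i := by
    intro i
    obtain ⟨W, hW, hWV⟩ := Filter.mem_comap.1 (hV i)
    obtain ⟨ε, hε, hεW⟩ := Metric.mem_nhds_iff.1 hW
    refine ⟨ε, hε, fun B hB1 hB2 => hWV (hεW ?_)⟩
    rw [Metric.mem_ball, Real.dist_eq, abs_lt]
    constructor <;> linarith
  choose ε hε hεV using h3
  haveI : Fintype I := hI.fintype
  refine ⟨Finset.univ.image fun i : I => (i.1, infDist i.1 A.1 + ε i),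
    Finset.univ.image fun i : I => (i.1, infDist i.1 A.1 - ε i), ⟨?_, ?_⟩, ?_⟩
  · intro t ht
    obtain ⟨i, _, rfl⟩ := Finset.mem_image.1 ht
    have := hε i
    simp only
    linarith
  · intro t ht
    obtain ⟨i, _, rfl⟩ := Finset.mem_image.1 ht
    have := hε i
    simp only
    linarith
  · rintro B ⟨hB1, hB2⟩
    rw [mem_iInter]
    intro i
    exact hεV i B (hB2 _ (Finset.mem_image_of_mem _ (Finset.mem_univ i)))
      (hB1 _ (Finset.mem_image_of_mem _ (Finset.mem_univ i)))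

theorem exists_basic' (A : Hyp X) (U : Set (Hyp X)) (hU : IsOpen[wijsman X d] U) (hA : A ∈ U) :
    ∃ S T : Finset (X × ℝ), S.Nonempty ∧ A ∈ basic S T ∧ basic S T ⊆ U := by
  classical
  obtain ⟨S, T, h1, h2⟩ := exists_basic A U hU hA
  obtain ⟨a, ha⟩ := A.2.2
  refine ⟨insert (a, 1) S, T, Finset.insert_nonempty _ _, ⟨?_, h1.2⟩, ?_⟩
  · intro t ht
    rcases Finset.mem_insert.1 ht with rfl | ht
    · simp only
      rw [infDist_zero_of_mem ha]
      exact one_pos
    · exact h1.1 t ht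
  · rintro B ⟨hB1, hB2⟩
    exact h2 ⟨fun t ht => hB1 t (Finset.mem_insert_of_mem ht), hB2⟩

/-- A finite nonempty set, as a point of the hyperspace. -/
def ofFin (F : Set X) (hF : F.Finite) (hne : F.Nonempty) : Hyp X := ⟨F, hF.isClosed, hne⟩

theorem lt_infDist_fin {F : Set X} (hF : F.Finite) (hne : F.Nonempty) {y : X} {s : ℝ}
    (h : ∀ z ∈ F, s < dist y z) : s < infDist y F := by
  obtain ⟨z, hz, hzd⟩ := hF.isCompact.exists_infDist_eq_dist hne y
  rw [hzd]
  exact h z hz

/-- The set `G` is met by all members of `U`. -/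
def Hit (U : Set (Hyp X)) (G : Set X) : Prop := ∀ B ∈ U, (B.1 ∩ G).Nonempty

variable (D : SizeData X)

/-- The least positive size of a set met by all members of `U`. -/
noncomputable def ee (U : Set (Hyp X)) : ℝ≥0∞ := ⨅ (G : Set X) (_ : Hit U G) (_ : 0 < D.sz G), D.sz G

theorem ee_le {U : Set (Hyp X)} {G : Set X} (h : Hit U G) (h0 : 0 < D.sz G) :
    ee D U ≤ D.sz G :=
  (iInf_le _ G).trans ((iInf_le _ h).trans (iInf_le _ h0))

theorem ee_mono {U V : Set (Hyp X)} (h : U ⊆ V) : ee D U ≤ ee D V := by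
  refine le_iInf fun G => le_iInf fun hG => le_iInf fun h0 => ?_
  exact ee_le D (fun B hB => hG B (h hB)) h0

theorem ee_pos {U : Set (Hyp X)} (hU : IsOpen[wijsman X d] U) {A : Hyp X} (hA : A ∈ U) :
    0 < ee D U := by
  classical
  obtain ⟨S, T, hSne, hAb, hb⟩ := exists_basic' A U hU hA
  -- the sets
  let Q : X × ℝ → Set X := fun t => {x | dist t.1 x < t.2 ∧ ∀ t' ∈ T, t'.2 < dist t'.1 x}
  have hQo : ∀ t, IsOpen (Q t) := by
    intro t
    have : Q t = {x | dist t.1 x < t.2} ∩ ⋂ t' ∈ T, {x | t'.2 < dist t'.1 x} := by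
      ext x; simp [Q]
    rw [this]
    refine IsOpen.inter ?_ (isOpen_biInter_finset fun t' _ => ?_)
    · exact _root_.isOpen_lt (continuous_const.dist continuous_id) continuous_const
    · exact _root_.isOpen_lt continuous_const (continuous_const.dist continuous_id)
  have hQne : ∀ t ∈ S, (Q t).Nonempty := by
    intro t ht
    obtain ⟨z, hz, hzd⟩ := (infDist_lt_iff A.2.2).1 (hAb.1 t ht)
    exact ⟨z, hzd, fun t' ht' => (hAb.2 t' ht').trans_le (infDist_le_dist_of_mem hz)⟩
  have hQe : ∀ t, ∃ e : ℝ≥0∞, 0 < e ∧ (t ∈ S → ∀ G : Set X, Q t ⊆ G → 0 < D.sz G → e ≤ D.sz G) := by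
    intro t
    by_cases ht : t ∈ S
    · obtain ⟨z, hz⟩ := hQne t ht
      by_cases hnt : (Q t).Nontrivial
      · exact ⟨D.sz (Q t), D.pos hnt, fun _ G hG _ => D.mono hG⟩
      · have hsing : Q t = {z} := by
          rw [Set.not_nontrivial_iff] at hnt
          exact hnt.eq_singleton_of_mem hz
        obtain ⟨e, he, heG⟩ := D.iso z (hsing ▸ hQo t)
        exact ⟨e, he, fun _ G hG h0 => heG G (hG hz) (D.nontrivial h0)⟩
    · exact ⟨1, one_pos, fun h => absurd h ht⟩
  choose e he heG using hQe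
  obtain ⟨t0, ht0, hmin⟩ := S.exists_min_image e hSne
  refine (he t0).trans_le (le_iInf fun G => le_iInf fun hG => le_iInf fun h0 => ?_)
  -- some `Q t` is contained in `G`
  have hsub : ∃ t ∈ S, Q t ⊆ G := by
    by_contra hcon
    push Not at hcon
    have hex : ∀ t, ∃ z, t ∈ S → z ∈ Q t ∧ z ∉ G := by
      intro t
      by_cases ht : t ∈ S
      · obtain ⟨z, hz, hzG⟩ := not_subset.1 (hcon t ht)
        exact ⟨z, fun _ => ⟨hz, hzG⟩⟩
      · exact ⟨A.2.2.some, fun h => absurd h ht⟩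
    choose z hz using hex
    have hFne : ((S.image z : Finset X) : Set X).Nonempty := by
      obtain ⟨t, ht⟩ := hSne
      exact ⟨z t, by simpa using ⟨_, _, ht, rfl⟩⟩
    have hmem : ofFin _ (S.image z).finite_toSet hFne ∈ basic S T := by
      refine ⟨fun t ht => ?_, fun t' ht' => ?_⟩
      · refine (infDist_le_dist_of_mem (y := z t) ?_).trans_lt (hz t ht).1.1
        exact Finset.mem_coe.2 (Finset.mem_image_of_mem z ht)
      · refine lt_infDist_fin (S.image z).finite_toSet hFne ?_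
        intro w hw
        obtain ⟨t, ht, rfl⟩ := Finset.mem_image.1 (Finset.mem_coe.1 hw)
        exact (hz t ht).1.2 t' ht'
    obtain ⟨w, hw, hwG⟩ := hG _ (hb hmem)
    obtain ⟨t, ht, rfl⟩ := Finset.mem_image.1 (Finset.mem_coe.1 hw)
    exact (hz t ht).2 hwG
  obtain ⟨t, ht, htG⟩ := hsub
  exact (hmin t ht).trans (heG t ht G htG h0)

/-- The bound for the sizes of the next sets. -/
noncomputable def del (U : Set (Hyp X)) : ℝ≥0∞ := min (ee D U / 2) 1

theorem del_pos {U : Set (Hyp X)} (hU : IsOpen[wijsman X d] U) {A : Hyp X} (hA : A ∈ U) :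
    0 < del D U :=
  lt_min (ENNReal.half_pos (ee_pos D hU hA).ne') one_pos

/-- The sets `V` and `W` of a move: the hits are triples `(a, ε, R)`, the misses are triples
`(y, s, s')`. -/
def VV (S T : Finset (X × ℝ × ℝ)) : Set (Hyp X) :=
  {B | (∀ t ∈ S, infDist t.1 B.1 < t.2.1) ∧ ∀ t ∈ T, t.2.2 < infDist t.1 B.1}

/-- The bigger set `W`. -/
def WW (S T : Finset (X × ℝ × ℝ)) : Set (Hyp X) :=
  {B | (∀ t ∈ S, infDist t.1 B.1 < t.2.2) ∧ ∀ t ∈ T, t.2.1 < infDist t.1 B.1}

theorem isOpen_VV (S T : Finset (X × ℝ × ℝ)) : IsOpen[wijsman X d] (VV S T) := by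
  letI := wijsman X d
  have : VV S T = (⋂ t ∈ S, {B : Hyp X | infDist t.1 B.1 < t.2.1}) ∩
      ⋂ t ∈ T, {B : Hyp X | t.2.2 < infDist t.1 B.1} := by
    ext B
    simp [VV]
  rw [this]
  exact (isOpen_biInter_finset fun t _ => isOpen_lt t.1 t.2.1).inter
    (isOpen_biInter_finset fun t _ => isOpen_gt t.1 t.2.2)

/-- The properties of the data of the answer to the position `(A, U)`. -/
structure Good (A : Hyp X) (U : Set (Hyp X)) (S T : Finset (X × ℝ × ℝ)) : Prop where
  ne : S.Nonempty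
  mem : ∀ t ∈ S, t.1 ∈ A.1
  pos : ∀ t ∈ S, 0 < t.2.1 ∧ t.2.1 < t.2.2
  lt : ∀ t ∈ T, t.2.1 < t.2.2
  inV : A ∈ VV S T
  sub : WW S T ⊆ U
  size : ∀ t ∈ S, ball t.1 t.2.1 = {t.1} ∨
    ((ball t.1 t.2.1).Nontrivial ∧ D.sz (ball t.1 t.2.1) ≤ del D U)

theorem exists_good (A : Hyp X) (U : Set (Hyp X)) (hU : IsOpen[wijsman X d] U) (hA : A ∈ U) :
    ∃ S T : Finset (X × ℝ × ℝ), Good D A U S T := by
  classical
  obtain ⟨S, T, hSne, hAb, hb⟩ := exists_basic' A U hU hA
  have h1 : ∀ t : X × ℝ, ∃ w : X × ℝ × ℝ, t ∈ S → w.1 ∈ A.1 ∧ (0 < w.2.1 ∧ w.2.1 < w.2.2) ∧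
      ball w.1 w.2.2 ⊆ ball t.1 t.2 ∧ (ball w.1 w.2.1 = {w.1} ∨
        ((ball w.1 w.2.1).Nontrivial ∧ D.sz (ball w.1 w.2.1) ≤ del D U)) := by
    intro t
    by_cases ht : t ∈ S
    swap
    · exact ⟨(t.1, 0, 0), fun h => absurd h ht⟩
    obtain ⟨z, hz, hzd⟩ := (infDist_lt_iff A.2.2).1 (hAb.1 t ht)
    have hzb : z ∈ ball t.1 t.2 := by rw [mem_ball, dist_comm]; exact hzd
    obtain ⟨R, hR, hRb⟩ := Metric.isOpen_iff.1 isOpen_ball z hzb
    obtain ⟨O, hO, hzO, hOs⟩ := D.small z (del D U) (del_pos D hU hA)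
    obtain ⟨r, hr, hrO⟩ := Metric.isOpen_iff.1 hO z hzO
    refine ⟨(z, min r (R / 2), R), fun _ => ⟨hz, ⟨lt_min hr (half_pos hR),
      (min_le_right _ _).trans_lt (half_lt_self hR)⟩, hRb, ?_⟩⟩
    by_cases hnt : (ball z (min r (R / 2))).Nontrivial
    · exact Or.inr ⟨hnt, (D.mono ((ball_subset_ball (min_le_left _ _)).trans hrO)).trans hOs⟩
    · left
      rw [Set.not_nontrivial_iff] at hnt
      exact hnt.eq_singleton_of_mem (mem_ball_self (lt_min hr (half_pos hR)))
  choose w hw using h1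
  let v : X × ℝ → X × ℝ × ℝ := fun t => (t.1, t.2, (t.2 + infDist t.1 A.1) / 2)
  refine ⟨S.image w, T.image v, ⟨hSne.image w, ?_, ?_, ?_, ⟨?_, ?_⟩, ?_, ?_⟩⟩
  · intro t ht
    obtain ⟨t', ht', rfl⟩ := Finset.mem_image.1 ht
    exact (hw t' ht').1
  · intro t ht
    obtain ⟨t', ht', rfl⟩ := Finset.mem_image.1 ht
    exact (hw t' ht').2.1
  · intro t ht
    obtain ⟨t', ht', rfl⟩ := Finset.mem_image.1 ht
    have := hAb.2 t' ht'
    simp only [v]
    linarith
  · intro t ht
    obtain ⟨t', ht', rfl⟩ := Finset.mem_image.1 ht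
    rw [infDist_zero_of_mem (hw t' ht').1]
    exact (hw t' ht').2.1.1
  · intro t ht
    obtain ⟨t', ht', rfl⟩ := Finset.mem_image.1 ht
    have := hAb.2 t' ht'
    simp only [v]
    linarith
  · rintro B ⟨hB1, hB2⟩
    refine hb ⟨fun t ht => ?_, fun t ht => ?_⟩
    · have h2 := hB1 _ (Finset.mem_image_of_mem w ht)
      obtain ⟨z, hz, hzd⟩ := (infDist_lt_iff B.2.2).1 h2
      have h3 : z ∈ ball t.1 t.2 := (hw t ht).2.2.1 (by rw [mem_ball, dist_comm]; exact hzd)
      rw [mem_ball, dist_comm] at h3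
      exact (infDist_le_dist_of_mem hz).trans_lt h3
    · exact hB2 _ (Finset.mem_image_of_mem v ht)
  · intro t ht
    obtain ⟨t', ht', rfl⟩ := Finset.mem_image.1 ht
    exact (hw t' ht').2.2.2

/-- The missed region. -/
def MM (T : Finset (X × ℝ × ℝ)) : Set X := {x | ∃ t ∈ T, dist t.1 x ≤ t.2.2}

theorem fin_mem_VV {S T : Finset (X × ℝ × ℝ)} {F : Set X} (hF : F.Finite) (hne : F.Nonempty)
    (h1 : ∀ t ∈ S, ∃ z ∈ F, z ∈ ball t.1 t.2.1) (h2 : ∀ z ∈ F, z ∉ MM T) :
    ofFin F hF hne ∈ VV S T := by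
  refine ⟨fun t ht => ?_, fun t ht => ?_⟩
  · obtain ⟨z, hz, hzb⟩ := h1 t ht
    rw [mem_ball, dist_comm] at hzb
    exact (infDist_le_dist_of_mem hz).trans_lt hzb
  · refine lt_infDist_fin hF hne fun z hz => ?_
    by_contra hcon
    exact h2 z hz ⟨t, ht, not_lt.1 hcon⟩

theorem notMem_MM {S T : Finset (X × ℝ × ℝ)} {B : Hyp X} (h : B ∈ VV S T) {z : X} (hz : z ∈ B.1) :
    z ∉ MM T := by
  rintro ⟨t, ht, htz⟩
  exact absurd ((h.2 t ht).trans_le (infDist_le_dist_of_mem hz)) (not_lt.2 htz)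

theorem hit_of_mem {S T : Finset (X × ℝ × ℝ)} {B : Hyp X} (h : B ∈ VV S T) {t : X × ℝ × ℝ}
    (ht : t ∈ S) : (B.1 ∩ ball t.1 t.2.1).Nonempty := by
  obtain ⟨z, hz, hzd⟩ := (infDist_lt_iff B.2.2).1 (h.1 t ht)
  exact ⟨z, hz, by rw [mem_ball, dist_comm]; exact hzd⟩

/-- The play is won. -/
theorem play (A : ℕ → Hyp X) (U : ℕ → Set (Hyp X)) (S T : ℕ → Finset (X × ℝ × ℝ))
    (hg : ∀ n, Good D (A n) (U n) (S n) (T n)) (hsub : ∀ n, U (n + 1) ⊆ VV (S n) (T n))
    (hA : ∀ n, A n ∈ U n) :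
    ∃ B : Hyp X, ∀ n, B ∈ U n := by
  classical
  have hstep : ∀ n, VV (S (n + 1)) (T (n + 1)) ⊆ VV (S n) (T n) := by
    intro n B hB
    refine hsub n ((hg (n + 1)).sub ⟨fun t ht => (hB.1 t ht).trans ((hg (n + 1)).pos t ht).2,
      fun t ht => ((hg (n + 1)).lt t ht).trans (hB.2 t ht)⟩)
  -- the missed regions increase
  have hM : ∀ n, MM (T n) ⊆ MM (T (n + 1)) := by
    intro n x hx
    by_contra hcon
    have hF : (insert x ((S (n + 1)).image Prod.fst : Set X)).Finite :=
      ((S (n + 1)).image Prod.fst).finite_toSet.insert x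
    have h1 : ofFin _ hF (insert_nonempty _ _) ∈ VV (S (n + 1)) (T (n + 1)) := by
      refine fin_mem_VV hF _ (fun t ht => ⟨t.1, Or.inr ?_, mem_ball_self
        ((hg (n + 1)).pos t ht).1⟩) ?_
      · exact Finset.mem_coe.2 (Finset.mem_image_of_mem _ ht)
      · rintro z (rfl | hz)
        · exact hcon
        · obtain ⟨t, ht, rfl⟩ := Finset.mem_image.1 (Finset.mem_coe.1 hz)
          exact notMem_MM (hg (n + 1)).inV ((hg (n + 1)).mem t ht)
    exact notMem_MM (hstep n h1) (mem_insert x _) hx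
  have hMm : Monotone fun n => MM (T n) := monotone_nat_of_le_succ hM
  -- every hit is refined at the next stage
  have href : ∀ n, ∀ t ∈ S n, ∃ t' ∈ S (n + 1), ball t'.1 t'.2.1 \ MM (T (n + 1)) ⊆
      ball t.1 t.2.1 := by
    intro n t ht
    by_contra hcon
    push Not at hcon
    have hex : ∀ t', ∃ z, t' ∈ S (n + 1) → (z ∈ ball t'.1 t'.2.1 ∧ z ∉ MM (T (n + 1))) ∧
        z ∉ ball t.1 t.2.1 := by
      intro t'
      by_cases ht' : t' ∈ S (n + 1)
      · obtain ⟨z, hz, hz2⟩ := not_subset.1 (hcon t' ht')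
        exact ⟨z, fun _ => ⟨hz, hz2⟩⟩
      · exact ⟨t'.1, fun h => absurd h ht'⟩
    choose z hz using hex
    have hFne : (((S (n + 1)).image z : Finset X) : Set X).Nonempty := by
      obtain ⟨t', ht'⟩ := (hg (n + 1)).ne
      exact ⟨z t', Finset.mem_coe.2 (Finset.mem_image_of_mem z ht')⟩
    have h1 : ofFin _ ((S (n + 1)).image z).finite_toSet hFne ∈ VV (S (n + 1)) (T (n + 1)) := by
      refine fin_mem_VV _ _ (fun t' ht' => ⟨z t', ?_, (hz t' ht').1.1⟩) ?_
      · exact Finset.mem_coe.2 (Finset.mem_image_of_mem z ht')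
      · intro w hw
        obtain ⟨t', ht', rfl⟩ := Finset.mem_image.1 (Finset.mem_coe.1 hw)
        exact (hz t' ht').1.2
    obtain ⟨w, hw, hwb⟩ := hit_of_mem (hstep n h1) ht
    obtain ⟨t', ht', rfl⟩ := Finset.mem_image.1 (Finset.mem_coe.1 hw)
    exact (hz t' ht').2 hwb
  choose! nx hnx hnx2 using href
  -- sizes
  have hdel : ∀ n, ∀ t ∈ S n, (ball t.1 t.2.1).Nontrivial →
      D.sz (ball t.1 t.2.1) ≤ del D (U n) → del D (U (n + 1)) ≤ del D (U n) / 2 := by
    intro n t ht hnt hsz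
    have h1 : ee D (U (n + 1)) ≤ D.sz (ball t.1 t.2.1) :=
      ee_le D (fun B hB => hit_of_mem (hsub n hB) ht) (D.pos hnt)
    refine (min_le_left _ _).trans ?_
    exact ENNReal.div_le_div_right (h1.trans hsz) 2
  -- limit points
  have hlim : ∀ n, ∀ t ∈ S n, ∃ p : X, dist t.1 p ≤ t.2.1 ∧
      ∀ k, ∀ t' ∈ T k, t'.2.2 ≤ dist t'.1 p := by
    intro n t ht
    let br : ℕ → X × ℝ × ℝ := fun m => Nat.rec t (fun m s => nx (n + m) s) m
    have hbr0 : br 0 = t := rfl
    have hbrs : ∀ m, br (m + 1) = nx (n + m) (br m) := fun m => rfl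
    have hbr : ∀ m, br m ∈ S (n + m) := by
      intro m
      induction m with
      | zero => exact ht
      | succ m ih => rw [hbrs]; exact hnx _ _ ih
    let Q : ℕ → Set X := fun m => ball (br m).1 (br m).2.1 \ MM (T (n + m))
    let q : ℕ → X := fun m => (br m).1
    have hQ : ∀ m, Q (m + 1) ⊆ Q m := by
      intro m x hx
      refine ⟨hnx2 (n + m) (br m) (hbr m) hx, fun h => hx.2 (hM (n + m) h)⟩
    have hQa : Antitone Q := antitone_nat_of_succ_le hQ
    have hq : ∀ m, q m ∈ Q m := fun m =>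
      ⟨mem_ball_self ((hg (n + m)).pos _ (hbr m)).1,
        notMem_MM (hg (n + m)).inV ((hg (n + m)).mem _ (hbr m))⟩
    have hconv : ∃ p, Tendsto q atTop (𝓝 p) := by
      by_cases hcase : ∃ m, ball (br m).1 (br m).2.1 = {(br m).1}
      · obtain ⟨m, hm⟩ := hcase
        refine ⟨q m, ?_⟩
        apply tendsto_const_nhds.congr'
        filter_upwards [eventually_ge_atTop m] with k hk
        have h1 := (hQa hk (hq k)).1
        rw [hm] at h1
        exact h1.symm
      · push Not at hcase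
        have hsz : ∀ m, (ball (br m).1 (br m).2.1).Nontrivial ∧
            D.sz (ball (br m).1 (br m).2.1) ≤ del D (U (n + m)) := by
          intro m
          rcases (hg (n + m)).size _ (hbr m) with h | h
          · exact absurd h (hcase m)
          · exact h
        refine D.complete Q q hQ hq ?_
        have h1 : ∀ m, del D (U (n + m)) ≤ (1 / 2) ^ m := by
          intro m
          induction m with
          | zero => rw [pow_zero]; exact min_le_right _ _
          | succ m ih =>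
            refine (hdel (n + m) _ (hbr m) (hsz m).1 (hsz m).2).trans ?_
            rw [pow_succ, ENNReal.div_eq_inv_mul, mul_comm, one_div]
            rw [one_div] at ih
            exact mul_le_mul' ih le_rfl
        refine tendsto_of_tendsto_of_tendsto_of_le_of_le tendsto_const_nhds
          (ENNReal.tendsto_pow_atTop_nhds_zero_of_lt_one (r := 1 / 2) ?_) (fun m => zero_le)
          (fun m => (D.mono sdiff_subset).trans ((hsz m).2.trans (h1 m)))
        rw [one_div]
        exact ENNReal.inv_lt_one.2 ENNReal.one_lt_two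
    obtain ⟨p, hp⟩ := hconv
    refine ⟨p, ?_, ?_⟩
    · refine le_of_tendsto (tendsto_const_nhds.dist hp) (Eventually.of_forall fun m => ?_)
      have h1 := (hQa (Nat.zero_le m) (hq m)).1
      rw [mem_ball, dist_comm] at h1
      exact h1.le
    · intro k t' ht'
      refine ge_of_tendsto (tendsto_const_nhds.dist hp) ?_
      filter_upwards [eventually_ge_atTop k] with m hm
      by_contra hcon
      exact (hq m).2 (hMm (show k ≤ n + m by omega) ⟨t', ht', (not_le.1 hcon).le⟩)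
  haveI : Nonempty X := ⟨(A 0).2.2.some⟩
  choose! p hp1 hp2 using hlim
  let P : Set X := {x | ∃ n, ∃ t ∈ S n, x = p n t}
  have hPne : P.Nonempty := by
    obtain ⟨t, ht⟩ := (hg 0).ne
    exact ⟨_, 0, t, ht, rfl⟩
  refine ⟨⟨closure P, isClosed_closure, hPne.closure⟩, fun n => (hg n).sub ⟨?_, ?_⟩⟩
  · intro t ht
    show infDist t.1 (closure P) < t.2.2
    have h1 : p n t ∈ closure P := subset_closure ⟨n, t, ht, rfl⟩
    refine (infDist_le_dist_of_mem h1).trans_lt ?_
    exact (hp1 n t ht).trans_lt ((hg n).pos t ht).2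
  · intro t ht
    show t.2.1 < infDist t.1 (closure P)
    rw [infDist_closure]
    refine ((hg n).lt t ht).trans_le ((le_infDist hPne).2 ?_)
    rintro _ ⟨k, t', ht', rfl⟩
    exact hp2 k t' ht' n t ht

end

end Pool.Agent.H860R2.Wijsman
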